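import Pool.Agent.MP_fdcf9c_lc.Defs

open Filter

namespace Pool.Agent.MP_fdcf9c_lc

/-! ### General computability lemmas -/

section comp

variable {α β σ : Type} [Primcodable α] [Primcodable β] [Primcodable σ]

lemma foldl_eq_rec (F : σ → β → σ) (x : σ) (L : List β) (k : ℕ) :
    (Nat.rec x (fun j s => (L[j]?).elim s (fun b => F s b)) k : σ) = (L.take k).foldl F x := by
  induction k with
  | zero => simp
  | succ k ih =>
    change (L[k]?).elim (Nat.rec x (fun j s => (L[j]?).elim s (fun b => F s b)) k : σ) _ = _
    rw [ih, List.take_add_one, List.foldl_append]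
    cases h : L[k]? with
    | none => simp
    | some b => simp

lemma computable_foldl {f : α → List β} {g : α → σ} {h : α → σ × β → σ} (hf : Computable f)
    (hg : Computable g) (hh : Computable₂ h) :
    Computable fun a => (f a).foldl (fun s b => h a (s, b)) (g a) := by
  have h1 : Computable fun a => (Nat.rec (g a)
      (fun j s => ((f a)[j]?).elim s (fun b => h a (s, b))) (f a).length : σ) := by
    refine Computable.nat_rec (Computable.list_length.comp hf) hg
      (h := fun a p => ((f a)[p.1]?).elim p.2 (fun b => h a (p.2, b))) ?_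
    have h2 : Computable fun (p : α × ℕ × σ) => ((f p.1)[p.2.1]?) :=
      Computable.list_getElem?.comp (hf.comp Computable.fst) (Computable.fst.comp Computable.snd)
    have h3 : Computable₂ fun (p : α × ℕ × σ) (b : β) => h p.1 (p.2.2, b) :=
      hh.comp (Computable.fst.comp Computable.fst)
        (Computable.pair (Computable.snd.comp (Computable.snd.comp Computable.fst)) Computable.snd)
    refine (Computable.option_casesOn h2 (Computable.snd.comp Computable.snd) h3).of_eq ?_
    rintro ⟨a, j, s⟩
    dsimp only
    cases (f a)[j]? <;> rfl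
  refine h1.of_eq fun a => ?_
  rw [foldl_eq_rec (fun s b => h a (s, b)) (g a) (f a) (f a).length, List.take_length]

lemma computable_foldr {f : α → List β} {g : α → σ} {h : α → β × σ → σ} (hf : Computable f)
    (hg : Computable g) (hh : Computable₂ h) :
    Computable fun a => (f a).foldr (fun b s => h a (b, s)) (g a) := by
  have h1 : Computable fun a => ((f a).reverse).foldl (fun s b => h a (b, s)) (g a) :=
    computable_foldl (h := fun a p => h a (p.2, p.1)) (Computable.list_reverse.comp hf) hg
      (hh.comp Computable.fst (Computable.pair (Computable.snd.comp Computable.snd)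
        (Computable.fst.comp Computable.snd)))
  refine h1.of_eq fun a => ?_
  rw [List.foldl_reverse]

/-- Selection of a witness of a computable condition. -/
lemma exists_selector {φ : ℕ →. ℕ} (hφ : Partrec φ) {R : (ℕ × ℕ) × α → Bool} (hR : Computable R) :
    ∃ χ : ℕ →. α, Partrec χ ∧
      (∀ i l, l ∈ χ i → ∃ a ∈ φ i, R ((i, a), l) = true) ∧
      (∀ i a l, a ∈ φ i → R ((i, a), l) = true → (χ i).Dom) := by
  let F : ℕ × ℕ → ℕ → Option α := fun p k =>
    (Encodable.decode (α := α) k).bind fun l => cond (R (p, l)) (some l) none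
  have hF : Computable₂ F := by
    have h1 : Computable fun (q : (ℕ × ℕ) × ℕ) => (Encodable.decode (α := α) q.2) :=
      Computable.decode.comp Computable.snd
    have h2 : Computable₂ fun (q : (ℕ × ℕ) × ℕ) (l : α) => (cond (R (q.1, l)) (some l) none) := by
      refine Computable.cond (hR.comp (Computable.pair (Computable.fst.comp Computable.fst)
        Computable.snd)) (Computable.option_some.comp Computable.snd) (Computable.const none)
    exact Computable.option_bind h1 h2
  have hs : Partrec fun p : ℕ × ℕ => Nat.rfindOpt (F p) := Partrec.rfindOpt hF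
  refine ⟨fun i => (φ i).bind fun a => Nat.rfindOpt (F (i, a)), ?_, ?_, ?_⟩
  · exact hφ.bind hs.to₂
  · intro i l hl
    obtain ⟨a, ha, hl'⟩ := Part.mem_bind_iff.mp hl
    refine ⟨a, ha, ?_⟩
    obtain ⟨n, hn⟩ := Nat.rfindOpt_spec hl'
    simp only [F, Option.mem_def, Option.bind_eq_some_iff] at hn
    obtain ⟨l', -, hl'⟩ := hn
    cases hR' : R ((i, a), l') with
    | true =>
      rw [hR'] at hl'
      simp only [cond_true, Option.some.injEq] at hl'
      rw [← hl']
      exact hR'
    | false =>
      rw [hR'] at hl'
      simp at hl'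
  · intro i a l ha hRl
    have hdom : (Nat.rfindOpt (F (i, a))).Dom := by
      rw [Nat.rfindOpt_dom]
      refine ⟨Encodable.encode l, l, ?_⟩
      simp [F, hRl]
    obtain ⟨y, hy⟩ := Part.dom_iff_mem.mp hdom
    exact Part.dom_iff_mem.mpr ⟨y, Part.mem_bind_iff.mpr ⟨a, ha, hy⟩⟩

end comp

/-! ### Cohesive sets -/

lemma Cohesive.neBot {C : Set ℕ} (hC : Cohesive C) : (ae C).NeBot := by
  have := hC.1
  rw [ae]
  rwa [← Filter.cofinite_inf_principal_neBot_iff] at this

lemma eventually_ae_iff {C : Set ℕ} {p : ℕ → Prop} :
    (∀ᶠ i in ae C, p i) ↔ {i ∈ C | ¬ p i}.Finite := by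
  rw [ae, eventually_inf_principal, eventually_cofinite]
  constructor <;> intro h <;> refine h.subset ?_ <;> intro x hx <;> simpa using hx

lemma Cohesive.dichotomy {C : Set ℕ} (hC : Cohesive C) {p : ℕ → Prop} (hp : REPred p) :
    (∀ᶠ i in ae C, p i) ∨ (∀ᶠ i in ae C, ¬ p i) := by
  rcases hC.2 {i | p i} hp with h | h
  · left
    rw [eventually_ae_iff]
    exact h
  · right
    rw [eventually_ae_iff]
    refine h.subset ?_
    rintro x ⟨hx, hx'⟩
    exact ⟨hx, not_not.mp hx'⟩

/-! ### Computable fields -/

namespace ComputableField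

variable (A : ComputableField)

open Classical in
/-- computable retraction of `ω` onto the domain -/
noncomputable def ret (n : ℕ) : A.Elem := if h : n ∈ A.carrier then ⟨n, h⟩ else 0

@[simp] lemma ret_coe (x : A.Elem) : A.ret x = x := by
  simp [ret]

lemma computable_ret : Computable fun n => (A.ret n : ℕ) := by
  obtain ⟨hd, hc⟩ := A.computable_carrier
  refine (Computable.cond hc Computable.id (Computable.const ((0 : A.Elem) : ℕ))).of_eq ?_
  intro n
  by_cases h : n ∈ A.carrier <;> simp [ret, h]

/-- addition on codes -/
noncomputable def addN (p : ℕ × ℕ) : ℕ := ((A.ret p.1 + A.ret p.2 : A.Elem) : ℕ)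

/-- multiplication on codes -/
noncomputable def mulN (p : ℕ × ℕ) : ℕ := ((A.ret p.1 * A.ret p.2 : A.Elem) : ℕ)

lemma computable_addN : Computable A.addN := by
  obtain ⟨f, hf, hf'⟩ := A.computable_add
  refine (hf.comp (Computable.pair (A.computable_ret.comp Computable.fst)
    (A.computable_ret.comp Computable.snd))).of_eq ?_
  intro p
  exact hf' _ _

lemma computable_mulN : Computable A.mulN := by
  obtain ⟨f, hf, hf'⟩ := A.computable_mul
  refine (hf.comp (Computable.pair (A.computable_ret.comp Computable.fst)
    (A.computable_ret.comp Computable.snd))).of_eq ?_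
  intro p
  exact hf' _ _

lemma computable_powN : Computable fun p : ℕ × ℕ => ((A.ret p.1 ^ p.2 : A.Elem) : ℕ) := by
  have h1 : Computable fun p : ℕ × ℕ => (Nat.rec (((1 : A.Elem) : ℕ))
      (fun _ s => A.mulN (s, p.1)) p.2 : ℕ) := by
    refine Computable.nat_rec (h := fun p q => A.mulN (q.2, p.1))
      Computable.snd (Computable.const _) ?_
    exact A.computable_mulN.comp (Computable.pair (Computable.snd.comp Computable.snd)
      (Computable.fst.comp Computable.fst))
  refine h1.of_eq ?_
  rintro ⟨a, k⟩
  dsimp only
  induction k with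
  | zero => simp
  | succ k ih =>
    change A.mulN ((Nat.rec (((1 : A.Elem) : ℕ)) (fun _ s => A.mulN (s, a)) k : ℕ), a) = _
    rw [ih, mulN]
    simp only [ret_coe, pow_succ]

end ComputableField

namespace ComputableExtension

variable (E : ComputableExtension)

lemma algebraMap_eq (x : E.F.Elem) : algebraMap E.F.Elem E.K.Elem x = E.emb x := rfl

/-- the embedding on codes -/
noncomputable def embN (n : ℕ) : ℕ := (E.emb (E.F.ret n) : ℕ)

lemma computable_embN : Computable E.embN := by
  obtain ⟨f, hf, hf'⟩ := E.computable_emb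
  exact (hf.comp E.F.computable_ret).of_eq fun n => hf' _

/-- the polynomial over `F` with a given list of codes of coefficients -/
noncomputable def poly (l : List ℕ) : Polynomial E.F.Elem :=
  l.foldr (fun c p => Polynomial.C (E.F.ret c) + Polynomial.X * p) 0

@[simp] lemma poly_nil : E.poly [] = 0 := rfl

@[simp] lemma poly_cons (c : ℕ) (l : List ℕ) :
    E.poly (c :: l) = Polynomial.C (E.F.ret c) + Polynomial.X * E.poly l := rfl

lemma exists_list (p : Polynomial E.F.Elem) : ∃ l : List ℕ, E.poly l = p ∧
    l.length ≤ p.natDegree + 1 := by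
  generalize hn : p.natDegree = n
  induction n using Nat.strong_induction_on generalizing p with
  | _ n ih =>
    by_cases hd : n = 0
    · have hp : p = Polynomial.C (p.coeff 0) := Polynomial.eq_C_of_natDegree_eq_zero (hn.trans hd)
      refine ⟨[(p.coeff 0 : ℕ)], ?_, by simp⟩
      rw [poly_cons, poly_nil, ComputableField.ret_coe, mul_zero, add_zero]
      exact hp.symm
    · have h1 : (p.divX).natDegree = n - 1 := by
        rw [Polynomial.natDegree_divX_eq_natDegree_tsub_one, hn]
      obtain ⟨l, hl, hl'⟩ := ih (n - 1) (by omega) p.divX h1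
      refine ⟨(p.coeff 0 : ℕ) :: l, ?_, ?_⟩
      · rw [poly_cons, hl, ComputableField.ret_coe, add_comm]
        exact Polynomial.X_mul_divX_add p
      · simp only [List.length_cons]
        omega

/-- evaluation -/
noncomputable def ev (l : List ℕ) (y : E.K.Elem) : E.K.Elem :=
  l.foldr (fun c s => E.emb (E.F.ret c) + y * s) 0

lemma ev_eq (l : List ℕ) (y : E.K.Elem) : E.ev l y = Polynomial.aeval y (E.poly l) := by
  induction l with
  | nil => simp [ev, poly]
  | cons c l ih =>
    rw [poly_cons, map_add, map_mul, Polynomial.aeval_C, Polynomial.aeval_X, ← ih]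
    rfl

lemma computable_ev : Computable fun p : List ℕ × ℕ => (E.ev p.1 (E.K.ret p.2) : ℕ) := by
  have h1 : Computable fun p : List ℕ × ℕ => (p.1).foldr
      (fun c s => E.K.addN (E.embN c, E.K.mulN (p.2, s))) ((0 : E.K.Elem) : ℕ) := by
    refine computable_foldr (h := fun (p : List ℕ × ℕ) (q : ℕ × ℕ) =>
      E.K.addN (E.embN q.1, E.K.mulN (p.2, q.2)))
      Computable.fst (Computable.const _) ?_
    refine E.K.computable_addN.comp (Computable.pair ?_ ?_)
    · exact E.computable_embN.comp (Computable.fst.comp Computable.snd)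
    · exact E.K.computable_mulN.comp (Computable.pair (Computable.snd.comp Computable.fst)
        (Computable.snd.comp Computable.snd))
  refine h1.of_eq ?_
  rintro ⟨l, a⟩
  dsimp only
  induction l with
  | nil => simp [ev]
  | cons c l ih =>
    rw [List.foldr_cons, ih]
    simp [ev, ComputableField.addN, ComputableField.mulN, embN]

end ComputableExtension

end Pool.Agent.MP_fdcf9c_lc
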