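import Mathlib

open Filter

namespace Pool.Agent.MP_fdcf9c_lc

/-- An infinite set `C ⊆ ω` is cohesive if for every c.e. set `W` either `C ⊆* W` or
`C ⊆* ω \ W`. -/
def Cohesive (C : Set ℕ) : Prop :=
  C.Infinite ∧ ∀ W : Set ℕ, REPred (fun n => n ∈ W) → (C \ W).Finite ∨ (C ∩ W).Finite

/-- `∀ᶠ i in ae C, p i` says that `p i` holds for almost every `i`: the set of `i` where it holds
contains `C` up to a finite set. -/
def ae (C : Set ℕ) : Filter ℕ := cofinite ⊓ 𝓟 C

/-- A computable field: a field whose domain is a computable subset of `ω` and whose operations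
are computable. -/
structure ComputableField where
  /-- the domain -/
  carrier : Set ℕ
  [field : Field carrier]
  computable_carrier : ComputablePred fun n : ℕ => n ∈ carrier
  computable_add : ∃ f : ℕ × ℕ → ℕ, Computable f ∧
    ∀ x y : carrier, f (x, y) = ((x + y : carrier) : ℕ)
  computable_mul : ∃ f : ℕ × ℕ → ℕ, Computable f ∧
    ∀ x y : carrier, f (x, y) = ((x * y : carrier) : ℕ)

/-- the type of elements of a computable field -/
abbrev ComputableField.Elem (A : ComputableField) : Type := A.carrier

noncomputable instance (A : ComputableField) : Field A.Elem := A.field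

/-- A computable field extension `K/F`: computable fields `F`, `K` and a computable embedding of
`F` into `K`. -/
structure ComputableExtension where
  F : ComputableField
  K : ComputableField
  /-- the embedding `F → K` -/
  emb : F.Elem →+* K.Elem
  computable_emb : ∃ f : ℕ → ℕ, Computable f ∧ ∀ x : F.Elem, f x = (emb x : ℕ)

noncomputable instance (E : ComputableExtension) : Algebra E.F.Elem E.K.Elem := E.emb.toAlgebra

/-- The sequence `f` agrees for almost every `i` with a partial computable function (which is then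
defined, with values in the field, for almost every `i`). -/
def IsPC (C : Set ℕ) (A : ComputableField) (f : ℕ → A.Elem) : Prop :=
  ∃ φ : ℕ →. ℕ, Partrec φ ∧ ∀ᶠ i in ae C, (f i : ℕ) ∈ φ i

section closure

variable {C : Set ℕ} {A : ComputableField}

lemma IsPC.const (a : A.Elem) : IsPC C A fun _ => a :=
  ⟨fun _ => Part.some (a : ℕ), (Computable.const (a : ℕ)).partrec,
    Eventually.of_forall fun _ => Part.mem_some _⟩

lemma IsPC.map₂ {B D : ComputableField} {f : ℕ → A.Elem} {g : ℕ → B.Elem} (hf : IsPC C A f)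
    (hg : IsPC C B g) (op : A.Elem → B.Elem → D.Elem)
    (hop : ∃ h : ℕ × ℕ → ℕ, Computable h ∧
      ∀ (x : A.Elem) (y : B.Elem), h ((x : ℕ), (y : ℕ)) = ((op x y : D.Elem) : ℕ)) :
    IsPC C D fun i => op (f i) (g i) := by
  obtain ⟨φ, hφ, hφ'⟩ := hf
  obtain ⟨ψ, hψ, hψ'⟩ := hg
  obtain ⟨h, hh, hh'⟩ := hop
  refine ⟨fun i => (φ i).bind fun a => (ψ i).map fun b => h (a, b), ?_, ?_⟩
  · refine hφ.bind ?_
    have h1 : Partrec fun p : ℕ × ℕ => ψ p.1 := hψ.comp Computable.fst
    have h2 : Computable₂ fun (p : ℕ × ℕ) (b : ℕ) => h (p.2, b) :=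
      hh.comp (Computable.pair (Computable.snd.comp Computable.fst) Computable.snd)
    exact h1.map h2
  · filter_upwards [hφ', hψ'] with i hi hi'
    rw [Part.mem_bind_iff]
    refine ⟨_, hi, ?_⟩
    rw [Part.mem_map_iff]
    exact ⟨_, hi', hh' _ _⟩

lemma IsPC.add {f g : ℕ → A.Elem} (hf : IsPC C A f) (hg : IsPC C A g) :
    IsPC C A (f + g) := hf.map₂ hg (· + ·) A.computable_add

lemma IsPC.mul {f g : ℕ → A.Elem} (hf : IsPC C A f) (hg : IsPC C A g) :
    IsPC C A (f * g) := hf.map₂ hg (· * ·) A.computable_mul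

lemma IsPC.neg {f : ℕ → A.Elem} (hf : IsPC C A f) : IsPC C A (-f) := by
  have h := (IsPC.const (-1 : A.Elem)).mul hf
  have h1 : (fun _ => (-1 : A.Elem)) * f = -f := by
    funext i
    simp
  rwa [h1] at h

lemma IsPC.emb {E : ComputableExtension} {f : ℕ → E.F.Elem} (hf : IsPC C E.F f) :
    IsPC C E.K fun i => E.emb (f i) := by
  obtain ⟨φ, hφ, hφ'⟩ := hf
  obtain ⟨h, hh, hh'⟩ := E.computable_emb
  refine ⟨fun i => (φ i).map h, hφ.map (hh.comp Computable.snd), ?_⟩
  filter_upwards [hφ'] with i hi
  rw [Part.mem_map_iff]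
  exact ⟨_, hi, hh' _⟩

end closure

/-- The cohesive power `∏_C A`: the classes, modulo equality for almost every `i`, of the
sequences `f : ω → A` that agree for almost every `i` with a partial computable function. It is
given as a subring of the ring of all classes of sequences, so the operations are pointwise. -/
def CohesivePower (C : Set ℕ) (A : ComputableField) : Subring (Germ (ae C) A.Elem) where
  carrier := {x | ∃ f : ℕ → A.Elem, IsPC C A f ∧ (f : Germ (ae C) A.Elem) = x}
  mul_mem' := by
    rintro _ _ ⟨f, hf, rfl⟩ ⟨g, hg, rfl⟩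
    exact ⟨f * g, hf.mul hg, rfl⟩
  one_mem' := ⟨fun _ => 1, IsPC.const 1, rfl⟩
  add_mem' := by
    rintro _ _ ⟨f, hf, rfl⟩ ⟨g, hg, rfl⟩
    exact ⟨f + g, hf.add hg, rfl⟩
  zero_mem' := ⟨fun _ => 0, IsPC.const 0, rfl⟩
  neg_mem' := by
    rintro _ ⟨f, hf, rfl⟩
    exact ⟨-f, hf.neg, rfl⟩

/-- The map on classes of sequences induced by a ring homomorphism. -/
def germMap {R S : Type} [CommRing R] [CommRing S] (l : Filter ℕ) (ψ : R →+* S) :
    Germ l R →+* Germ l S where
  toFun := Germ.map ψ
  map_one' := by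
    change (((ψ ∘ fun _ => (1 : R)) : ℕ → S) : Germ l S) = ((fun _ => (1 : S) : ℕ → S) : Germ l S)
    congr 1
    funext i
    simp
  map_mul' := by
    intro x y
    induction x using Germ.inductionOn with | _ f
    induction y using Germ.inductionOn with | _ g
    change (((ψ ∘ (f * g)) : ℕ → S) : Germ l S) = (((ψ ∘ f) * (ψ ∘ g) : ℕ → S) : Germ l S)
    congr 1
    funext i
    simp
  map_zero' := by
    change (((ψ ∘ fun _ => (0 : R)) : ℕ → S) : Germ l S) = ((fun _ => (0 : S) : ℕ → S) : Germ l S)
    congr 1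
    funext i
    simp
  map_add' := by
    intro x y
    induction x using Germ.inductionOn with | _ f
    induction y using Germ.inductionOn with | _ g
    change (((ψ ∘ (f + g)) : ℕ → S) : Germ l S) = (((ψ ∘ f) + (ψ ∘ g) : ℕ → S) : Germ l S)
    congr 1
    funext i
    simp

/-- The embedding `∏_C F → ∏_C K`, `[α] ↦ [i ↦ Ψ(α(i))]`, of a computable extension `K/F`. -/
noncomputable def ComputableExtension.powMap (E : ComputableExtension) (C : Set ℕ) :
    CohesivePower C E.F →+* CohesivePower C E.K :=
  ((germMap (ae C) E.emb).comp (CohesivePower C E.F).subtype).codRestrict (CohesivePower C E.K) (by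
    rintro ⟨_, f, hf, rfl⟩
    exact ⟨fun i => E.emb (f i), hf.emb, rfl⟩)

/-- The extension `∏_C K / ∏_C F`. -/
noncomputable instance (E : ComputableExtension) (C : Set ℕ) :
    Algebra (CohesivePower C E.F) (CohesivePower C E.K) := (E.powMap C).toAlgebra

/-- The transcendence degree of `∏_C K` over `∏_C F`. -/
noncomputable def ComputableExtension.powTrdeg (E : ComputableExtension) (C : Set ℕ) :
    Cardinal.{0} := Algebra.trdeg (CohesivePower C E.F) (CohesivePower C E.K)

end Pool.Agent.MP_fdcf9c_lc
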