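import Pool.Agent.MP_fdcf9c_lc.Indep

open Filter Polynomial

namespace Pool.Agent.MP_fdcf9c_lc

namespace ComputableExtension

variable (E : ComputableExtension)

/-- evaluation on codes -/
noncomputable def evN (p : List ℕ × ℕ) : ℕ := (E.ev p.1 (E.K.ret p.2) : ℕ)

lemma computable_evN : Computable E.evN := E.computable_ev

/-- coefficient of a coded polynomial -/
noncomputable def cf (l : List ℕ) (k : ℕ) : E.F.Elem :=
  E.F.ret ((l[k]?).getD ((0 : E.F.Elem) : ℕ))

lemma poly_coeff (l : List ℕ) (k : ℕ) : (E.poly l).coeff k = E.cf l k := by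
  induction l generalizing k with
  | nil => simp [cf]
  | cons c l ih =>
    rw [poly_cons, coeff_add]
    cases k with
    | zero => simp [cf]
    | succ k =>
      rw [coeff_X_mul, ih, coeff_C]
      simp [cf]

lemma poly_natDegree_lt (l : List ℕ) (k : ℕ) (hk : l.length ≤ k) : (E.poly l).coeff k = 0 := by
  rw [poly_coeff, cf, List.getElem?_eq_none hk]
  simp

lemma ev_eq_sum (l : List ℕ) (D : ℕ) (hD : l.length ≤ D) (y : E.K.Elem) :
    E.ev l y = ∑ k ∈ Finset.range D, E.emb (E.cf l k) * y ^ k := by
  rw [ev_eq]
  have h1 : ∀ k ∈ (E.poly l).support, k ∈ Finset.range D := by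
    intro k hk
    rw [Finset.mem_range]
    by_contra hcon
    exact (mem_support_iff.mp hk) (E.poly_natDegree_lt l k (hD.trans (not_lt.mp hcon)))
  rw [aeval_def, eval₂_eq_sum, Polynomial.sum, Finset.sum_subset h1]
  · refine Finset.sum_congr rfl fun k _ => ?_
    rw [poly_coeff]
    rfl
  · intro k _ hk
    rw [notMem_support_iff.mp hk]
    simp

end ComputableExtension

/-- power on codes -/
noncomputable def ComputableField.powN (A : ComputableField) (p : ℕ × ℕ) : ℕ :=
  ((A.ret p.1 ^ p.2 : A.Elem) : ℕ)

lemma ComputableField.computable_powN' (A : ComputableField) : Computable A.powN :=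
  A.computable_powN

/-- If `x` is transcendental over `∏_C F` then the degrees of its entries tend to infinity. -/
theorem degrees_large {C : Set ℕ} (hC : Cohesive C) (E : ComputableExtension)
    (halg : Algebra.IsAlgebraic E.F.Elem E.K.Elem) (f : ℕ → E.K.Elem) (hf : IsPC C E.K f)
    (hx : Transcendental (CohesivePower C E.F) (cls f hf)) (D : ℕ) :
    ∀ᶠ i in ae C, D < (minpoly E.F.Elem (f i)).natDegree := by
  classical
  have hint : ∀ y : E.K.Elem, IsIntegral E.F.Elem y := fun y =>
    (halg.isAlgebraic y).isIntegral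
  rcases Nat.eq_zero_or_pos D with rfl | hD
  · exact Eventually.of_forall fun i => minpoly.natDegree_pos (hint _)
  obtain ⟨φ, hφ, hφ'⟩ := id hf
  let R : (ℕ × ℕ) × List ℕ → Bool := fun q =>
    (decide (q.2.length ≤ D)) && (decide (E.K.addN (E.evN (q.2, q.1.2), E.K.powN (q.1.2, D)) =
      ((0 : E.K.Elem) : ℕ)))
  have hR : Computable R := by
    have h1 : Computable fun q : (ℕ × ℕ) × List ℕ => decide (q.2.length ≤ D) :=
      (Primrec.nat_le.comp (Primrec.list_length.comp Primrec.snd) (Primrec.const D)).decide.to_comp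
    have h2 : Computable fun q : (ℕ × ℕ) × List ℕ =>
        E.K.addN (E.evN (q.2, q.1.2), E.K.powN (q.1.2, D)) :=
      E.K.computable_addN.comp (Computable.pair
        (E.computable_evN.comp (Computable.pair Computable.snd
          (Computable.snd.comp Computable.fst)))
        (E.K.computable_powN'.comp (Computable.pair (Computable.snd.comp Computable.fst)
          (Computable.const D))))
    have h3 : Computable fun q : (ℕ × ℕ) × List ℕ =>
        decide (E.K.addN (E.evN (q.2, q.1.2), E.K.powN (q.1.2, D)) = ((0 : E.K.Elem) : ℕ)) :=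
      (Primrec.eq (α := ℕ)).decide.to_comp.comp h2 (Computable.const _)
    exact Primrec.and.to_comp.comp h1 h3
  obtain ⟨χ, hχ, h1, h2⟩ := exists_selector hφ hR
  have hRiff : ∀ (i : ℕ) (y : E.K.Elem) (l : List ℕ), R ((i, (y : ℕ)), l) = true ↔
      l.length ≤ D ∧ E.ev l y + y ^ D = 0 := by
    intro i y l
    simp only [R, Bool.and_eq_true, decide_eq_true_eq, ComputableField.addN,
      ComputableExtension.evN, ComputableField.powN, ComputableField.ret_coe]
    constructor
    · rintro ⟨h3, h4⟩
      exact ⟨h3, Subtype.ext h4⟩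
    · rintro ⟨h3, h4⟩
      exact ⟨h3, congrArg Subtype.val h4⟩
  rcases hC.dichotomy hχ.dom_re with hd | hd
  · exfalso
    apply hx
    -- choose the list
    let L : ℕ → List ℕ := fun i => if h : (χ i).Dom then (χ i).get h else []
    have hL : ∀ᶠ i in ae C, L i ∈ χ i := by
      filter_upwards [hd] with i hi
      simp only [L, hi, dif_pos]
      exact Part.get_mem hi
    have hcf : ∀ k, IsPC C E.F fun i => E.cf (L i) k := by
      intro k
      refine ⟨fun i => (χ i).map fun l => (E.cf l k : ℕ), ?_, ?_⟩
      · refine hχ.map ?_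
        have h3 : Computable fun p : ℕ × List ℕ => ((p.2[k]?).getD ((0 : E.F.Elem) : ℕ)) :=
          Computable.option_getD (Computable.list_getElem?.comp Computable.snd (Computable.const k))
            (Computable.const _)
        exact E.F.computable_ret.comp h3
      · filter_upwards [hL] with i hi
        rw [Part.mem_map_iff]
        exact ⟨L i, hi, rfl⟩
    let Q : Polynomial (CohesivePower C E.F) :=
      X ^ D + ∑ k ∈ Finset.range D, Polynomial.C (cls _ (hcf k)) * X ^ k
    have hnt : Nontrivial (CohesivePower C E.F) := by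
      have := hC.neBot
      infer_instance
    have hQ : Q.Monic := by
      refine monic_X_pow_add ?_
      refine (degree_sum_le _ _).trans_lt ?_
      refine (Finset.sup_lt_iff (WithBot.bot_lt_coe D)).mpr ?_
      intro k hk
      refine (degree_C_mul_X_pow_le _ _).trans_lt ?_
      exact WithBot.coe_lt_coe.mpr (Finset.mem_range.mp hk)
    refine ⟨Q, hQ.ne_zero, ?_⟩
    apply Subtype.ext
    have h3 : (aeval (cls f hf) Q : CohesivePower C E.K) =
        (cls f hf) ^ D + ∑ k ∈ Finset.range D,
          (cls _ (hcf k).emb : CohesivePower C E.K) * (cls f hf) ^ k := by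
      simp only [Q, map_add, map_pow, aeval_X, map_sum, map_mul, aeval_C]
      rfl
    rw [h3]
    have h4 : (((cls f hf) ^ D + ∑ k ∈ Finset.range D,
          (cls _ (hcf k).emb : CohesivePower C E.K) * (cls f hf) ^ k : CohesivePower C E.K) :
            Germ (ae C) E.K.Elem) =
        Germ.coeRingHom (ae C) (fun i => f i ^ D + ∑ k ∈ Finset.range D,
          E.emb (E.cf (L i) k) * f i ^ k) := by
      have h5 : (fun i => f i ^ D + ∑ k ∈ Finset.range D, E.emb (E.cf (L i) k) * f i ^ k) =
          f ^ D + ∑ k ∈ Finset.range D, (fun i => E.emb (E.cf (L i) k)) * f ^ k := by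
        funext i
        simp [Finset.sum_apply]
      rw [h5, map_add, map_pow, map_sum]
      push_cast
      congr 1
    rw [h4]
    refine Germ.coe_eq.mpr ?_
    filter_upwards [hL, hφ'] with i hi hi'
    obtain ⟨a, ha, ha'⟩ := h1 i (L i) hi
    have : a = f i := Part.mem_unique ha hi'
    subst this
    obtain ⟨h5, h6⟩ := (hRiff i (f i) (L i)).mp ha'
    rw [E.ev_eq_sum (L i) D h5, add_comm] at h6
    exact h6
  · filter_upwards [hd, hφ'] with i hi hi'
    by_contra hcon
    rw [not_lt] at hcon
    apply hi
    set g := minpoly E.F.Elem (f i) with hg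
    have hgm : g.Monic := minpoly.monic (hint _)
    let q : Polynomial E.F.Elem := g * X ^ (D - g.natDegree)
    have hqm : q.Monic := hgm.mul (monic_X_pow _)
    have hqd : q.natDegree = D := by
      rw [hgm.natDegree_mul (monic_X_pow _), natDegree_X_pow]
      omega
    have hrd : (q - X ^ D).natDegree < D := by
      have h3 : (q - X ^ D).degree < q.degree := by
        apply degree_sub_lt_left
        · rw [degree_X_pow, degree_eq_natDegree hqm.ne_zero, hqd]
        · exact hqm.ne_zero
        · rw [hqm.leadingCoeff, leadingCoeff_X_pow]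
      by_cases hr0 : q - X ^ D = 0
      · rw [hr0, natDegree_zero]
        exact hD
      · have h4 := natDegree_lt_natDegree hr0 h3
        rwa [hqd] at h4
    obtain ⟨l, hl, hl'⟩ := E.exists_list (q - X ^ D)
    refine h2 i (f i) l hi' ((hRiff i (f i) l).mpr ⟨by omega, ?_⟩)
    rw [E.ev_eq, hl, map_sub, map_pow, aeval_X, sub_add_cancel, map_mul, minpoly.aeval, zero_mul]

end Pool.Agent.MP_fdcf9c_lc
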