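import Pool.Agent.MP_fdcf9c_lc.Powers

open Polynomial

namespace Pool.Agent.MP_fdcf9c_lc

/-- The matrix of the first `n ^ m` coefficients of the remainders modulo `g` of the monomials with
exponents `< n` in the polynomials `B 0, …, B (m - 1)`. -/
noncomputable def remMat {R : Type} [CommRing R] (m n : ℕ) (g : R[X]) (B : ℕ → R[X]) :
    Matrix (Fin (n ^ m)) (Fin (n ^ m)) R :=
  Matrix.of fun j k => ((mon m n B (k : ℕ)) %ₘ g).coeff (j : ℕ)

lemma mon_map {R S : Type} [CommRing R] [CommRing S] (φ : R →+* S) (m n : ℕ) (z : ℕ → R) (k : ℕ) :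
    φ (mon m n z k) = mon m n (fun l => φ (z l)) k := by
  rw [mon, map_prod, mon]
  exact Finset.prod_congr rfl fun l _ => map_pow _ _ _

lemma remMat_map {R S : Type} [CommRing R] [CommRing S] (φ : R →+* S) (m n : ℕ) (g : R[X])
    (hg : g.Monic) (B : ℕ → R[X]) :
    (remMat m n (g.map φ) fun l => (B l).map φ).det = φ (remMat m n g B).det := by
  rw [RingHom.map_det]
  congr 1
  ext j k
  simp only [remMat, Matrix.of_apply, RingHom.mapMatrix_apply, Matrix.map_apply]
  rw [← coeff_map, map_modByMonic φ hg]
  congr 2
  exact (mon_map (mapRingHom φ) m n B k).symm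

lemma expo_self {m n k : ℕ} (hk : k < n ^ m) : expo m n n k = k := by
  rw [expo_eq hk le_rfl]
  have h : (fun l : Fin m => (Fin.castLE le_rfl
      (finFunctionFinEquiv.symm (⟨k, hk⟩ : Fin (n ^ m)) l) : Fin n)) =
      finFunctionFinEquiv.symm (⟨k, hk⟩ : Fin (n ^ m)) := by
    funext l
    rfl
  rw [h, Equiv.apply_symm_apply]

lemma remMat_special {R : Type} [CommRing R] [Nontrivial R] (m n : ℕ) (g : R[X]) (hg : g.Monic)
    (hd : n ^ m ≤ g.natDegree) : (remMat m n g fun l => X ^ (n ^ l)).det = 1 := by
  have h : (remMat m n g fun l => X ^ (n ^ l)) = 1 := by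
    ext j k
    rw [remMat, Matrix.of_apply, mon_pow, expo_self k.2, (modByMonic_eq_self_iff hg).mpr,
      coeff_X_pow, Matrix.one_apply]
    · by_cases h : j = k
      · simp [h]
      · rw [if_neg h, if_neg fun h' => h (Fin.ext h')]
    · rw [degree_X_pow, degree_eq_natDegree hg.ne_zero]
      exact WithBot.coe_lt_coe.mpr (k.2.trans_le hd)
  rw [h, Matrix.det_one]

/-- Nonvanishing of the determinant gives independence modulo `g`. -/
lemma indep_of_det {R : Type} [Field R] {m n : ℕ} {g : R[X]} {B : ℕ → R[X]}
    (hg : g.Monic) (h : (remMat m n g B).det ≠ 0) (p : ℕ → R)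
    (hp : g ∣ ∑ k ∈ Finset.range (n ^ m), C (p k) * mon m n B k) : ∀ k < n ^ m, p k = 0 := by
  have h1 : (remMat m n g B).mulVec (fun k => p k) = 0 := by
    funext j
    rw [Matrix.mulVec, dotProduct, Pi.zero_apply]
    have h2 := (modByMonic_eq_zero_iff_dvd hg).mpr hp
    rw [← modByMonicHom_apply, map_sum] at h2
    have h3 := congrArg (fun q : R[X] => q.coeff (j : ℕ)) h2
    simp only [finsetSum_coeff, coeff_zero] at h3
    rw [Finset.sum_range] at h3
    rw [← h3]
    refine Finset.sum_congr rfl fun k _ => ?_
    rw [← smul_eq_C_mul, map_smul, coeff_smul, smul_eq_mul, mul_comm]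
    rfl
  have h4 := Matrix.eq_zero_of_mulVec_eq_zero h h1
  intro k hk
  exact congrFun h4 ⟨k, hk⟩

/-- Simultaneous choice of generic polynomials for finitely many conditions. -/
lemma exists_generic_finset {F L : Type} [Field F] [Infinite F] [Field L] [Algebra F L] (m : ℕ)
    (S : Finset (L[X] × ℕ)) (hS : ∀ c ∈ S, c.1.Monic ∧ c.2 ^ m ≤ c.1.natDegree) :
    ∃ B : ℕ → F[X], ∀ c ∈ S,
      (remMat m c.2 c.1 fun l => (B l).map (algebraMap F L)).det ≠ 0 := by
  classical
  induction S using Finset.induction_on with
  | empty => exact ⟨0, by simp⟩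
  | insert c₀ S hc₀ ih =>
    obtain ⟨B, hB⟩ := ih fun c hc => hS c (Finset.mem_insert_of_mem hc)
    set B' : ℕ → F[X] := fun l => X ^ (c₀.2 ^ l) with hB'
    -- the line through `B` and `B'`
    let line : F → ℕ → F[X] := fun t l => B l + C t * (B' l - B l)
    let T : ℕ → L[X][X] := fun l => ((B l).map (algebraMap F L)).map C +
      C X * ((B' l - B l).map (algebraMap F L)).map C
    have hT : ∀ t l, (T l).map (evalRingHom (algebraMap F L t)) =
        (line t l).map (algebraMap F L) := by
      intro t l
      have h1 : (evalRingHom (algebraMap F L t)).comp C = RingHom.id L := by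
        ext x
        simp
      simp only [T, line, Polynomial.map_add, Polynomial.map_mul, Polynomial.map_map, map_C]
      rw [← RingHom.comp_assoc, h1, RingHom.id_comp]
      simp
    let Q : L[X] × ℕ → L[X] := fun c => (remMat m c.2 (c.1.map C) T).det
    have hQ : ∀ c ∈ insert c₀ S, ∀ t, (Q c).eval (algebraMap F L t) =
        (remMat m c.2 c.1 fun l => (line t l).map (algebraMap F L)).det := by
      intro c hc t
      have h1 := remMat_map (evalRingHom (algebraMap F L t)) m c.2 (c.1.map C)
        ((hS c hc).1.map _) T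
      rw [coe_evalRingHom] at h1
      rw [← h1]
      congr 2
      · rw [Polynomial.map_map]
        have h2 : (evalRingHom (algebraMap F L t)).comp C = RingHom.id L := by
          ext x
          simp
        rw [h2, Polynomial.map_id]
      · funext l
        rw [hT]
    have hQ0 : ∀ c ∈ insert c₀ S, Q c ≠ 0 := by
      intro c hc h0
      rcases Finset.mem_insert.mp hc with rfl | hc'
      · have h1 := hQ c hc 1
        rw [h0, eval_zero] at h1
        have h2 : (fun l => (line 1 l).map (algebraMap F L)) = fun l => X ^ (c.2 ^ l) := by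
          funext l
          simp [line, hB']
        rw [h2, remMat_special m c.2 c.1 (hS c hc).1 (hS c hc).2] at h1
        exact one_ne_zero h1.symm
      · have h1 := hQ c hc 0
        rw [h0, eval_zero] at h1
        apply hB c hc'
        have h2 : (fun l => (line 0 l).map (algebraMap F L)) =
            fun l => (B l).map (algebraMap F L) := by
          funext l
          simp [line]
        rw [h2] at h1
        exact h1.symm
    have hprod : ∏ c ∈ insert c₀ S, Q c ≠ 0 := Finset.prod_ne_zero_iff.mpr hQ0
    obtain ⟨t, ht⟩ : ∃ t : F, (∏ c ∈ insert c₀ S, Q c).eval (algebraMap F L t) ≠ 0 := by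
      by_contra hcon
      push Not at hcon
      have h1 : (Set.range (algebraMap F L)).Infinite :=
        Set.infinite_range_of_injective (algebraMap F L).injective
      exact hprod (eq_zero_of_infinite_isRoot _ (h1.mono (by
        rintro _ ⟨t, rfl⟩
        exact hcon t)))
    rw [eval_prod, Finset.prod_ne_zero_iff] at ht
    refine ⟨line t, fun c hc => ?_⟩
    rw [← hQ c hc t]
    exact ht c hc

/-- Over an infinite field, there are polynomials `B 0, …, B (m - 1)` whose monomials with
exponents `< n` are independent modulo every divisor of `f` of degree at least `n ^ m`, over any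
extension field, for all `n ≤ N`. -/
theorem exists_generic {F : Type} [Field F] [Infinite F] (m N : ℕ) (f : F[X]) (hf : f ≠ 0) :
    ∃ B : ℕ → F[X], ∀ n ≤ N, ∀ (K' : Type) [Field K'] [Algebra F K'] (g : K'[X]), g.Monic →
      g ∣ f.map (algebraMap F K') → n ^ m ≤ g.natDegree → ∀ p : ℕ → K',
      (g ∣ ∑ k ∈ Finset.range (n ^ m), C (p k) * mon m n
        (fun l => (B l).map (algebraMap F K')) k) → ∀ k < n ^ m, p k = 0 := by
  classical
  let L := AlgebraicClosure F
  let f₀ : L[X] := f.map (algebraMap F L)
  have hf₀ : f₀ ≠ 0 := (Polynomial.map_ne_zero_iff (algebraMap F L).injective).mpr hf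
  let G : Finset L[X] := (f₀.roots.powerset.map
    fun s => (s.map fun a => X - C a).prod).toFinset
  let S : Finset (L[X] × ℕ) := (G ×ˢ Finset.range (N + 1)).filter
    fun c => c.2 ^ m ≤ c.1.natDegree
  obtain ⟨B, hB⟩ := exists_generic_finset (F := F) (L := L) m S (by
    intro c hc
    obtain ⟨h1, h2⟩ := Finset.mem_filter.mp hc
    refine ⟨?_, h2⟩
    have h3 := (Finset.mem_product.mp h1).1
    rw [Multiset.mem_toFinset, Multiset.mem_map] at h3
    obtain ⟨s, -, hs⟩ := h3
    rw [← hs]
    exact monic_multiset_prod_of_monic _ _ fun a _ => monic_X_sub_C a)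
  refine ⟨B, ?_⟩
  intro n hn K' _ _ g hg hgf hd p hp
  -- pass to the algebraic closure
  let M' := AlgebraicClosure K'
  let φ : L →ₐ[F] M' := IsAlgClosed.lift
  let g' : M'[X] := g.map (algebraMap K' M')
  have hg' : g'.Monic := hg.map _
  have hf' : f.map (algebraMap F M') = f₀.map (φ : L →+* M') := by
    rw [Polynomial.map_map, AlgHom.comp_algebraMap]
  have hroots : (f.map (algebraMap F M')).roots = f₀.roots.map φ := by
    rw [hf']
    exact (IsAlgClosed.splits f₀).roots_map (φ : L →+* M')
  have hfK' : f.map (algebraMap F M') ≠ 0 :=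
    (Polynomial.map_ne_zero_iff (algebraMap F M').injective).mpr hf
  have hgf' : g' ∣ f.map (algebraMap F M') := by
    have h1 := Polynomial.map_dvd (algebraMap K' M') hgf
    rwa [Polynomial.map_map, ← IsScalarTower.algebraMap_eq] at h1
  have hle : g'.roots ≤ f₀.roots.map φ := by
    rw [← hroots]
    exact roots.le_of_dvd hfK' hgf'
  obtain ⟨s, hs, hs'⟩ : ∃ s ≤ f₀.roots, s.map φ = g'.roots := by
    have hinj : Function.Injective φ := φ.injective
    let ψ : M' → L := Function.invFun φ
    refine ⟨g'.roots.map ψ, ?_, ?_⟩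
    · have h1 := Multiset.map_le_map (f := ψ) hle
      rwa [Multiset.map_map, Function.invFun_comp hinj, Multiset.map_id] at h1
    · rw [Multiset.map_map]
      conv_rhs => rw [← Multiset.map_id g'.roots]
      refine Multiset.map_congr rfl fun x hx => ?_
      have h1 := Multiset.mem_of_le hle hx
      obtain ⟨y, -, rfl⟩ := Multiset.mem_map.mp h1
      change φ (Function.invFun φ (φ y)) = φ y
      rw [Function.leftInverse_invFun hinj y]
  let g₀ : L[X] := (s.map fun a => X - C a).prod
  have hg₀ : g₀.Monic := monic_multiset_prod_of_monic _ _ fun a _ => monic_X_sub_C a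
  have hmap : g₀.map (φ : L →+* M') = g' := by
    rw [(IsAlgClosed.splits g').eq_prod_roots_of_monic hg', ← hs', Polynomial.map_multiset_prod,
      Multiset.map_map, Multiset.map_map]
    congr 1
    refine Multiset.map_congr rfl fun a _ => ?_
    simp
  have hdeg : g₀.natDegree = g.natDegree := by
    rw [← hg₀.natDegree_map (φ : L →+* M'), hmap]
    exact hg.natDegree_map _
  have hmem : (g₀, n) ∈ S := by
    refine Finset.mem_filter.mpr ⟨Finset.mem_product.mpr ⟨?_, ?_⟩, ?_⟩
    · rw [Multiset.mem_toFinset, Multiset.mem_map]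
      exact ⟨s, Multiset.mem_powerset.mpr hs, rfl⟩
    · exact Finset.mem_range.mpr (Nat.lt_succ_of_le hn)
    · change n ^ m ≤ g₀.natDegree
      rw [hdeg]
      exact hd
  have h1 := hB _ hmem
  have h2 : (remMat m n g' fun l => (B l).map (algebraMap F M')).det ≠ 0 := by
    have h3 := remMat_map (φ : L →+* M') m n g₀ hg₀ (fun l => (B l).map (algebraMap F L))
    rw [hmap] at h3
    have h4 : (fun l => ((B l).map (algebraMap F L)).map (φ : L →+* M')) =
        fun l => (B l).map (algebraMap F M') := by
      funext l
      rw [Polynomial.map_map, AlgHom.comp_algebraMap]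
    rw [h4] at h3
    rw [h3]
    exact (map_ne_zero_iff _ (φ : L →+* M').injective).mpr h1
  have h5 := indep_of_det hg' h2 (fun k => algebraMap K' M' (p k)) (by
    have h6 := Polynomial.map_dvd (algebraMap K' M') hp
    rw [Polynomial.map_sum] at h6
    convert h6 using 2 with k hk
    rw [Polynomial.map_mul, map_C]
    congr 1
    have h8 := mon_map (mapRingHom (algebraMap K' M')) m n
      (fun l => (B l).map (algebraMap F K')) k
    rw [coe_mapRingHom] at h8
    rw [h8]
    congr 1
    funext l
    rw [Polynomial.map_map, ← IsScalarTower.algebraMap_eq])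
  intro k hk
  have h7 := h5 k hk
  exact (map_eq_zero_iff _ (algebraMap K' M').injective).mp h7

end Pool.Agent.MP_fdcf9c_lc
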