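import Pool.Agent.MP_fdcf9c_lc.Basic

open Filter

namespace Pool.Agent.MP_fdcf9c_lc

/-- the `k`-th monomial with exponents `< n` in `z 0, …, z (m - 1)` -/
def mon {R : Type} [CommRing R] (m n : ℕ) (z : ℕ → R) (k : ℕ) : R :=
  ∏ l ∈ Finset.range m, z l ^ (k / n ^ l % n)

/-- `z 0, …, z (m - 1)` satisfy a nontrivial polynomial relation over `F` with all exponents
smaller than `n`. -/
def Rel (F : Type) {R : Type} [Field F] [CommRing R] [Algebra F R] (m n : ℕ) (z : ℕ → R) : Prop :=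
  ∃ p : ℕ → F, (∃ k < n ^ m, p k ≠ 0) ∧
    ∑ k ∈ Finset.range (n ^ m), algebraMap F R (p k) * mon m n z k = 0

/-- digits -/
noncomputable def dig (m n k : ℕ) : Fin m →₀ ℕ :=
  Finsupp.equivFunOnFinite.symm fun l : Fin m => k / n ^ (l : ℕ) % n

@[simp] lemma dig_apply (m n k : ℕ) (l : Fin m) : dig m n k l = k / n ^ (l : ℕ) % n := rfl

lemma dig_eq (m n k : ℕ) (hk : k < n ^ m) (l : Fin m) :
    dig m n k l = ((finFunctionFinEquiv.symm (⟨k, hk⟩ : Fin (n ^ m)) l : Fin n) : ℕ) := by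
  rw [dig_apply]
  rfl

lemma dig_injOn (m n : ℕ) : Set.InjOn (dig m n) {k | k < n ^ m} := by
  intro k hk k' hk' h
  have h1 : finFunctionFinEquiv.symm (⟨k, hk⟩ : Fin (n ^ m)) =
      finFunctionFinEquiv.symm (⟨k', hk'⟩ : Fin (n ^ m)) := by
    funext l
    apply Fin.ext
    rw [← dig_eq, ← dig_eq, h]
  have h2 := finFunctionFinEquiv.symm.injective h1
  exact congrArg Fin.val h2

lemma exists_dig (m n : ℕ) (d : Fin m →₀ ℕ) (hd : ∀ l, d l < n) : ∃ k < n ^ m, dig m n k = d := by
  let f : Fin m → Fin n := fun l => ⟨d l, hd l⟩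
  refine ⟨finFunctionFinEquiv f, (finFunctionFinEquiv f).2, ?_⟩
  ext l
  rw [dig_eq m n _ (finFunctionFinEquiv f).2]
  have : (⟨(finFunctionFinEquiv f : ℕ), (finFunctionFinEquiv f).2⟩ : Fin (n ^ m)) =
    finFunctionFinEquiv f := rfl
  rw [this, Equiv.symm_apply_apply]

lemma mon_eq {R : Type} [CommRing R] (m n : ℕ) (z : ℕ → R) (k : ℕ) :
    mon m n z k = ∏ l : Fin m, z l ^ dig m n k l := by
  rw [mon, Finset.prod_range]
  rfl

/-- From a sum over exponent vectors to `Rel`. -/
lemma rel_of_sum {F R : Type} [Field F] [CommRing R] [Algebra F R] {m n : ℕ} {z : ℕ → R}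
    (S : Finset (Fin m →₀ ℕ)) (hS : ∀ d ∈ S, ∀ l, d l < n) (c : (Fin m →₀ ℕ) → F)
    (d₀ : Fin m →₀ ℕ) (hd₀ : d₀ ∈ S) (hc : c d₀ ≠ 0)
    (h0 : ∑ d ∈ S, algebraMap F R (c d) * ∏ l : Fin m, z l ^ d l = 0) : Rel F m n z := by
  classical
  refine ⟨fun k => if dig m n k ∈ S then c (dig m n k) else 0, ?_, ?_⟩
  · obtain ⟨k, hk, hkd⟩ := exists_dig m n d₀ (hS d₀ hd₀)
    refine ⟨k, hk, ?_⟩
    simp only [hkd, hd₀, if_true]
    exact hc
  · rw [← h0]
    have h1 : ∀ k, algebraMap F R (if dig m n k ∈ S then c (dig m n k) else 0) * mon m n z k =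
        if dig m n k ∈ S then algebraMap F R (c (dig m n k)) * ∏ l : Fin m, z l ^ dig m n k l
        else 0 := by
      intro k
      split_ifs
      · rw [mon_eq]
      · simp
    simp only [h1]
    rw [← Finset.sum_filter]
    refine Finset.sum_bij (fun k _ => dig m n k) ?_ ?_ ?_ ?_
    · intro k hk
      exact (Finset.mem_filter.mp hk).2
    · intro k hk k' hk' h
      exact dig_injOn m n (Finset.mem_range.mp (Finset.mem_filter.mp hk).1)
        (Finset.mem_range.mp (Finset.mem_filter.mp hk').1) h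
    · intro d hd
      obtain ⟨k, hk, hkd⟩ := exists_dig m n d (hS d hd)
      exact ⟨k, Finset.mem_filter.mpr ⟨Finset.mem_range.mpr hk, hkd ▸ hd⟩, hkd⟩
    · intro k _
      rfl

/-- A partial computable sequence is zero almost everywhere or nonzero almost everywhere. -/
lemma IsPC.dichotomy {C : Set ℕ} (hC : Cohesive C) {A : ComputableField} {c : ℕ → A.Elem}
    (hc : IsPC C A c) : (∀ᶠ i in ae C, c i = 0) ∨ (∀ᶠ i in ae C, c i ≠ 0) := by
  obtain ⟨φ, hφ, hφ'⟩ := hc
  have hR : Computable fun q : (ℕ × ℕ) × ℕ => decide (q.1.2 = ((0 : A.Elem) : ℕ)) :=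
    (Primrec.eq.comp (Primrec.snd.comp Primrec.fst) (Primrec.const ((0 : A.Elem) : ℕ))).decide.to_comp
  obtain ⟨χ, hχ, h1, h2⟩ := exists_selector hφ hR
  have hdom : ∀ i, (c i : ℕ) ∈ φ i → ((χ i).Dom ↔ c i = 0) := by
    intro i hi
    constructor
    · intro hd
      obtain ⟨l, hl⟩ := Part.dom_iff_mem.mp hd
      obtain ⟨a, ha, ha'⟩ := h1 i l hl
      have : a = c i := Part.mem_unique ha hi
      subst this
      exact Subtype.ext (of_decide_eq_true ha')
    · intro h0
      refine h2 i (c i) 0 hi ?_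
      simp [h0]
  rcases hC.dichotomy hχ.dom_re with h | h
  · left
    filter_upwards [h, hφ'] with i hi hi'
    exact (hdom i hi').mp hi
  · right
    filter_upwards [h, hφ'] with i hi hi'
    exact fun h0 => hi ((hdom i hi').mpr h0)

/-- The element of the cohesive power given by a partial computable sequence. -/
def cls {C : Set ℕ} {A : ComputableField} (f : ℕ → A.Elem) (hf : IsPC C A f) :
    CohesivePower C A := ⟨(f : Germ (ae C) A.Elem), f, hf, rfl⟩

lemma algebraMap_cls {C : Set ℕ} (E : ComputableExtension) (f : ℕ → E.F.Elem)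
    (hf : IsPC C E.F f) : algebraMap (CohesivePower C E.F) (CohesivePower C E.K) (cls f hf) =
      cls (fun i => E.emb (f i)) hf.emb := rfl

lemma exists_rep {C : Set ℕ} {A : ComputableField} (x : CohesivePower C A) :
    ∃ f : ℕ → A.Elem, ∃ hf : IsPC C A f, x = cls f hf := by
  obtain ⟨_, f, hf, rfl⟩ := x
  exact ⟨f, hf, rfl⟩

/-- Independence criterion. -/
theorem indep {C : Set ℕ} (hC : Cohesive C) (E : ComputableExtension) (m : ℕ)
    (z : ℕ → ℕ → E.K.Elem) (hz : ∀ l, IsPC C E.K (z l))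
    (h : ∀ n, ∀ᶠ i in ae C, ¬ Rel E.F.Elem m n (fun l => z l i)) :
    AlgebraicIndependent (CohesivePower C E.F) fun l : Fin m => cls (z l) (hz l) := by
  classical
  have hne := hC.neBot
  rw [algebraicIndependent_iff]
  intro P hP
  by_contra hP0
  have hrep : ∀ d : Fin m →₀ ℕ, ∃ c : ℕ → E.F.Elem, ∃ hc : IsPC C E.F c,
      MvPolynomial.coeff d P = cls c hc := fun d => exists_rep _
  choose c hc hc' using hrep
  obtain ⟨d₀, hd₀⟩ := MvPolynomial.ne_zero_iff.mp hP0
  have hnz : ∀ᶠ i in ae C, c d₀ i ≠ 0 := by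
    rcases (hc d₀).dichotomy hC with h0 | h0
    · exfalso
      apply hd₀
      rw [hc']
      apply Subtype.ext
      exact Germ.coe_eq.mpr h0
    · exact h0
  have heval : ∀ᶠ i in ae C, ∑ d ∈ P.support, E.emb (c d i) * ∏ l : Fin m, z l i ^ d l = 0 := by
    rw [MvPolynomial.aeval_def, MvPolynomial.eval₂_eq'] at hP
    have h1 := congrArg (CohesivePower C E.K).subtype hP
    rw [map_sum, map_zero] at h1
    have h2 : ∀ d ∈ P.support, (CohesivePower C E.K).subtype
        ((algebraMap (CohesivePower C E.F) (CohesivePower C E.K)) (MvPolynomial.coeff d P) *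
          ∏ i : Fin m, cls (z i) (hz i) ^ d i) =
        Germ.coeRingHom (ae C) (fun i => E.emb (c d i) * ∏ l : Fin m, z l i ^ d l) := by
      intro d _
      rw [hc', algebraMap_cls, map_mul, map_prod]
      have h3 : (fun i => E.emb (c d i) * ∏ l : Fin m, z l i ^ d l) =
          (fun i => E.emb (c d i)) * ∏ l : Fin m, z l ^ d l := by
        funext i
        simp [Finset.prod_apply]
      rw [h3, map_mul, map_prod]
      congr 1
    rw [Finset.sum_congr rfl h2, ← map_sum] at h1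
    have h4 := Germ.coe_eq.mp (h1 : ((∑ d ∈ P.support, fun i => E.emb (c d i) *
      ∏ l : Fin m, z l i ^ d l : ℕ → E.K.Elem) : Germ (ae C) E.K.Elem) =
        ((0 : ℕ → E.K.Elem) : Germ (ae C) E.K.Elem))
    filter_upwards [h4] with i hi
    simpa [Finset.sum_apply] using hi
  obtain ⟨i, hi1, hi2, hi3⟩ := ((h (P.totalDegree + 1)).and (hnz.and heval)).exists
  apply hi1
  refine rel_of_sum P.support ?_ (fun d => c d i) d₀ (MvPolynomial.mem_support_iff.mpr hd₀) hi2 hi3
  intro d hd l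
  have h5 := MvPolynomial.le_totalDegree hd
  have h6 : d l ≤ d.sum fun _ e => e := by
    rw [Finsupp.sum_fintype _ _ (fun _ => rfl)]
    exact Finset.single_le_sum (f := fun l => d l) (fun _ _ => Nat.zero_le _) (Finset.mem_univ l)
  omega

end Pool.Agent.MP_fdcf9c_lc
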