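import Pool.Agent.MP_fdcf9c_lc.Sound

open Filter Polynomial

namespace Pool.Agent.MP_fdcf9c_lc

/-- The case of an infinite base field. -/
theorem indep_of_infinite {C : Set ℕ} (hC : Cohesive C) (E : ComputableExtension)
    [Infinite E.F.Elem] (halg : Algebra.IsAlgebraic E.F.Elem E.K.Elem) (f : ℕ → E.K.Elem)
    (hf : IsPC C E.K f)
    (hdeg : ∀ D, ∀ᶠ i in ae C, D < (minpoly E.F.Elem (f i)).natDegree) (m : ℕ) :
    ∃ x : Fin m → CohesivePower C E.K, AlgebraicIndependent (CohesivePower C E.F) x := by
  classical
  have hint : ∀ y : E.K.Elem, IsIntegral E.F.Elem y := fun y =>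
    (halg.isAlgebraic y).isIntegral
  obtain ⟨φ, hφ, hφ'⟩ := id hf
  -- the search: a polynomial, the generic polynomials, the certificates
  let R : (ℕ × ℕ) × ((List ℕ × List (List ℕ)) × List (List ((ℕ × List ℕ) × ℕ))) → Bool :=
    fun q => (decide (E.evN (q.2.1.1, q.1.2) = ((0 : E.K.Elem) : ℕ)) &&
      !(decide ((E.F.ret (((q.2.1.1)[q.2.1.1.length - 1]?).getD ((0 : E.F.Elem) : ℕ)) : ℕ) =
        ((0 : E.F.Elem) : ℕ)))) &&
      (List.range q.1.1).all fun n => E.F.certB (E.eqn m (q.2.1, n)) (q.2.2.getD n [])
  have hR : Computable R := by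
    have h1 : Computable fun q : (ℕ × ℕ) ×
        ((List ℕ × List (List ℕ)) × List (List ((ℕ × List ℕ) × ℕ))) =>
        decide (E.evN (q.2.1.1, q.1.2) = ((0 : E.K.Elem) : ℕ)) := by
      refine (Primrec.eq (α := ℕ)).decide.to_comp.comp ?_ (Computable.const _)
      exact E.computable_evN.comp (Computable.pair
        (Computable.fst.comp (Computable.fst.comp Computable.snd))
        (Computable.snd.comp Computable.fst))
    have h2 : Computable fun q : (ℕ × ℕ) ×
        ((List ℕ × List (List ℕ)) × List (List ((ℕ × List ℕ) × ℕ))) =>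
        decide ((E.F.ret (((q.2.1.1)[q.2.1.1.length - 1]?).getD ((0 : E.F.Elem) : ℕ)) : ℕ) =
          ((0 : E.F.Elem) : ℕ)) := by
      refine (Primrec.eq (α := ℕ)).decide.to_comp.comp ?_ (Computable.const _)
      refine E.F.computable_ret.comp (Computable.option_getD ?_ (Computable.const _))
      have h3 : Computable fun q : (ℕ × ℕ) ×
        ((List ℕ × List (List ℕ)) × List (List ((ℕ × List ℕ) × ℕ))) => q.2.1.1 :=
        Computable.fst.comp (Computable.fst.comp Computable.snd)
      exact Computable.list_getElem?.comp h3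
        (Primrec.nat_sub.to_comp.comp (Computable.list_length.comp h3) (Computable.const 1))
    have h4 : Computable fun q : (ℕ × ℕ) ×
        ((List ℕ × List (List ℕ)) × List (List ((ℕ × List ℕ) × ℕ))) =>
        (List.range q.1.1).all fun n => E.F.certB (E.eqn m (q.2.1, n)) (q.2.2.getD n []) := by
      refine computable_all ?_ ?_
      · exact Primrec.list_range.to_comp.comp (Computable.fst.comp Computable.fst)
      · refine E.F.computable_certB (α := ((ℕ × ℕ) ×
          ((List ℕ × List (List ℕ)) × List (List ((ℕ × List ℕ) × ℕ)))) × ℕ)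
          (eqn := fun p => E.eqn m (p.1.2.1, p.2)) ?_ ?_
        · exact (E.computable_eqn m).comp (Computable.pair
            (Computable.fst.comp (Computable.snd.comp (Computable.fst.comp Computable.fst)))
            (Computable.snd.comp Computable.fst)) Computable.snd
        · exact (Primrec.list_getD ([] : List ((ℕ × List ℕ) × ℕ))).to_comp.comp
            (Computable.snd.comp (Computable.snd.comp Computable.fst)) Computable.snd
    exact Primrec.and.to_comp.comp (Primrec.and.to_comp.comp h1 (Primrec.not.to_comp.comp h2)) h4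
  obtain ⟨χ, hχ, h1, h2⟩ := exists_selector hφ hR
  -- the search succeeds
  have hdom : ∀ i, (f i : ℕ) ∈ φ i → (χ i).Dom := by
    intro i hi
    set g := minpoly E.F.Elem (f i) with hg
    have hg0 : g ≠ 0 := minpoly.ne_zero (hint (f i))
    obtain ⟨l, hl, hl'⟩ := E.exists_list g
    obtain ⟨B, hB⟩ := exists_generic m i g hg0
    have hBl : ∀ k, ∃ b : List ℕ, E.poly b = B k := fun k =>
      (E.exists_list (B k)).imp fun b hb => hb.1
    choose b hb using hBl
    let Bs : List (List ℕ) := (List.range m).map b
    have hBs : ∀ k < m, E.pl Bs k = B k := by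
      intro k hk
      rw [ComputableExtension.pl, ← hb k]
      congr 1
      simp [Bs, hk]
    have hcert : ∀ n, ∃ c : List ((ℕ × List ℕ) × ℕ), n < i →
        E.F.certB (E.eqn m ((l, Bs), n)) c = true := by
      intro n
      by_cases hn : n < i
      · obtain ⟨c, hc⟩ := E.cert_complete m n l Bs (by rw [hl]; exact hg0) (by rw [hl]; exact hl')
          (by
            intro K' _ _ g' hg' hgg' hd p hp
            rw [hl] at hgg'
            refine hB n hn.le K' g' hg' hgg' hd p ?_
            have hmon : ∀ k, mon m n (fun l => (B l).map (algebraMap E.F.Elem K')) k =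
                mon m n (fun l => (E.pl Bs l).map (algebraMap E.F.Elem K')) k := by
              intro k
              rw [mon, mon]
              refine Finset.prod_congr rfl fun j hj => ?_
              rw [hBs j (Finset.mem_range.mp hj)]
            simp only [hmon]
            exact hp)
        exact ⟨c, fun _ => hc⟩
      · exact ⟨[], fun h => absurd h hn⟩
    choose c hc using hcert
    refine h2 i (f i) ((l, Bs), (List.range i).map c) hi ?_
    simp only [R, Bool.and_eq_true, decide_eq_true_eq, Bool.not_eq_true', decide_eq_false_iff_not,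
      List.all_eq_true, List.mem_range]
    refine ⟨⟨?_, ?_⟩, ?_⟩
    · rw [ComputableExtension.evN]
      simp only [ComputableField.ret_coe]
      rw [E.ev_eq, hl, hg, minpoly.aeval]
    · have h3 := E.poly_natDegree_lt_length l (by rw [hl]; exact hg0)
      have h4 : l.length - 1 = (E.poly l).natDegree := by
        rw [hl] at h3 ⊢
        omega
      intro h5
      have h6 := E.poly_coeff l (l.length - 1)
      rw [ComputableExtension.cf] at h6
      have h7 : (E.poly l).coeff (l.length - 1) = 0 := h6.trans (Subtype.ext h5)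
      rw [h4] at h7
      exact (leadingCoeff_ne_zero.mpr (by rw [hl]; exact hg0)) h7
    · intro n hn
      have h3 : ((List.range i).map c).getD n [] = c n := by
        simp [hn]
      rw [h3]
      exact hc n hn
  have hdom' : ∀ᶠ i in ae C, (χ i).Dom := hφ'.mono hdom
  let d : ℕ → ((List ℕ × List (List ℕ)) × List (List ((ℕ × List ℕ) × ℕ))) := fun i =>
    if h : (χ i).Dom then (χ i).get h else (([], []), [])
  have hd : ∀ᶠ i in ae C, d i ∈ χ i := by
    filter_upwards [hdom'] with i hi
    simp only [d, hi, dif_pos]
    exact Part.get_mem hi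
  have hz : ∀ l : ℕ, IsPC C E.K fun i => E.ev ((d i).1.2.getD l []) (f i) := by
    intro l
    refine ⟨fun i => (φ i).bind fun a => (χ i).map fun y => E.evN (y.1.2.getD l [], a), ?_, ?_⟩
    · refine hφ.bind ?_
      have h3 : Partrec fun p : ℕ × ℕ => χ p.1 := hχ.comp Computable.fst
      have h4 : Computable₂ fun (p : ℕ × ℕ)
          (y : (List ℕ × List (List ℕ)) × List (List ((ℕ × List ℕ) × ℕ))) =>
          E.evN (y.1.2.getD l [], p.2) := by
        refine E.computable_evN.comp (Computable.pair ?_ (Computable.snd.comp Computable.fst))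
        exact (Primrec.list_getD ([] : List ℕ)).to_comp.comp
          (Computable.snd.comp (Computable.fst.comp Computable.snd)) (Computable.const l)
      exact h3.map h4
    · filter_upwards [hd, hφ'] with i hi hi'
      rw [Part.mem_bind_iff]
      refine ⟨_, hi', ?_⟩
      rw [Part.mem_map_iff]
      refine ⟨_, hi, ?_⟩
      simp [ComputableExtension.evN]
  refine ⟨_, indep hC E m (fun l i => E.ev ((d i).1.2.getD l []) (f i)) hz ?_⟩
  intro n
  filter_upwards [hd, hφ', hdeg (n ^ m), eventually_ge (n + 1)] with i hi hi' hdi hni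
  obtain ⟨a, ha, hRa⟩ := h1 i (d i) hi
  have haf : a = f i := Part.mem_unique ha hi'
  subst haf
  simp only [R, Bool.and_eq_true, decide_eq_true_eq, Bool.not_eq_true', decide_eq_false_iff_not,
    List.all_eq_true, List.mem_range] at hRa
  obtain ⟨⟨h3, h4⟩, h5⟩ := hRa
  refine E.cert_sound m n (d i).1.1 (d i).1.2 _ (h5 n (by omega)) ?_ (f i) ?_ (hint _) hdi.le
  · intro h0
    apply h4
    have h6 := E.poly_coeff (d i).1.1 ((d i).1.1.length - 1)
    rw [h0, coeff_zero, ComputableExtension.cf] at h6
    exact congrArg Subtype.val h6.symm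
  · rw [ComputableExtension.evN] at h3
    simp only [ComputableField.ret_coe] at h3
    exact Subtype.ext h3

/-- Every computable extension: the cohesive power is algebraic, or it contains arbitrarily long
finite algebraically independent families. -/
theorem algebraic_or_indep {C : Set ℕ} (hC : Cohesive C) (E : ComputableExtension) :
    Algebra.IsAlgebraic (CohesivePower C E.F) (CohesivePower C E.K) ∨
      ∀ m : ℕ, ∃ x : Fin m → CohesivePower C E.K,
        AlgebraicIndependent (CohesivePower C E.F) x := by
  by_cases halg : Algebra.IsAlgebraic E.F.Elem E.K.Elem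
  · by_cases h : Algebra.IsAlgebraic (CohesivePower C E.F) (CohesivePower C E.K)
    · exact Or.inl h
    · right
      intro m
      rw [Algebra.isAlgebraic_def] at h
      push Not at h
      obtain ⟨x, hx⟩ := h
      obtain ⟨f, hf, rfl⟩ := exists_rep x
      have hdeg := degrees_large hC E halg f hf hx
      rcases finite_or_infinite E.F.Elem with hfin | hinf
      · exact indep_of_finite hC E halg f hf hdeg m
      · exact indep_of_infinite hC E halg f hf hdeg m
  · right
    intro m
    rw [Algebra.isAlgebraic_def] at halg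
    push Not at halg
    obtain ⟨t, ht⟩ := halg
    exact indep_of_transcendental hC E t ht m

/-- The cohesive power of a computable field is a field. -/
theorem isField {C : Set ℕ} (hC : Cohesive C) (A : ComputableField) :
    IsField (CohesivePower C A) := by
  have hne := hC.neBot
  refine ⟨⟨0, 1, ?_⟩, mul_comm, ?_⟩
  · exact zero_ne_one
  · intro x hx
    obtain ⟨f, hf, rfl⟩ := exists_rep x
    obtain ⟨φ, hφ, hφ'⟩ := id hf
    have hnz : ∀ᶠ i in ae C, f i ≠ 0 := by
      rcases hf.dichotomy hC with h | h
      · exact absurd (Subtype.ext (Germ.coe_eq.mpr h)) hx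
      · exact h
    have hR : Computable fun q : (ℕ × ℕ) × ℕ =>
        decide (A.mulN (q.1.2, q.2) = ((1 : A.Elem) : ℕ)) := by
      refine (Primrec.eq (α := ℕ)).decide.to_comp.comp ?_ (Computable.const _)
      exact A.computable_mulN.comp (Computable.pair (Computable.snd.comp Computable.fst)
        Computable.snd)
    obtain ⟨χ, hχ, h1, h2⟩ := exists_selector hφ hR
    have hinv : IsPC C A fun i => (f i)⁻¹ := by
      refine ⟨fun i => (χ i).map fun b => (A.ret b : ℕ), hχ.map
        (A.computable_ret.comp Computable.snd).to₂, ?_⟩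
      filter_upwards [hnz, hφ'] with i hi hi'
      have h3 : (χ i).Dom := by
        refine h2 i (f i) ((f i)⁻¹ : A.Elem) hi' ?_
        simp only [ComputableField.mulN, ComputableField.ret_coe, decide_eq_true_eq]
        rw [mul_inv_cancel₀ hi]
      obtain ⟨b, hb⟩ := Part.dom_iff_mem.mp h3
      rw [Part.mem_map_iff]
      refine ⟨b, hb, ?_⟩
      obtain ⟨a, ha, hab⟩ := h1 i b hb
      have haf : a = f i := Part.mem_unique ha hi'
      subst haf
      simp only [ComputableField.mulN, ComputableField.ret_coe, decide_eq_true_eq] at hab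
      have h4 : f i * A.ret b = 1 := Subtype.ext hab
      rw [eq_inv_of_mul_eq_one_right h4]
    refine ⟨cls _ hinv, ?_⟩
    apply Subtype.ext
    refine Germ.coe_eq.mpr ?_
    filter_upwards [hnz] with i hi
    exact mul_inv_cancel₀ hi


/-- A cohesive power is countable. -/
theorem countable_cohesivePower (C : Set ℕ) (A : ComputableField) :
    Countable (CohesivePower C A) := by
  have h : ∀ x : CohesivePower C A, ∃ c : Nat.Partrec.Code, ∃ f : ℕ → A.Elem,
      (f : Germ (ae C) A.Elem) = x ∧ ∀ᶠ i in ae C, (f i : ℕ) ∈ c.eval i := by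
    rintro ⟨x, f, ⟨φ, hφ, hφ'⟩, hf⟩
    obtain ⟨c, hc⟩ := Nat.Partrec.Code.exists_code.mp (Partrec.nat_iff.mp hφ)
    refine ⟨c, f, hf, ?_⟩
    rw [hc]
    exact hφ'
  choose c f hf hf' using h
  refine Function.Injective.countable (f := c) ?_
  intro x y hxy
  apply Subtype.ext
  rw [← hf x, ← hf y]
  refine Germ.coe_eq.mpr ?_
  filter_upwards [hf' x, hf' y] with i hi hi'
  rw [hxy] at hi
  exact Subtype.ext (Part.mem_unique hi hi')

/-- Main theorem. -/
theorem main {C : Set ℕ} (hC : Cohesive C) (E : ComputableExtension) :
    Algebra.IsAlgebraic (CohesivePower C E.F) (CohesivePower C E.K) ∨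
      Algebra.trdeg (CohesivePower C E.F) (CohesivePower C E.K) = Cardinal.aleph0 := by
  have hne := hC.neBot
  have hnt : Nontrivial (CohesivePower C E.F) := inferInstance
  rcases algebraic_or_indep hC E with h | h
  · exact Or.inl h
  · right
    apply le_antisymm
    · have := countable_cohesivePower C E.K
      refine ciSup_le' fun s => ?_
      exact (Cardinal.mk_set_le s.1).trans Cardinal.mk_le_aleph0
    · rw [Cardinal.aleph0_le]
      intro n
      obtain ⟨x, hx⟩ := h n
      have h1 := hx.cardinalMk_le_trdeg
      simpa using h1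

end Pool.Agent.MP_fdcf9c_lc
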