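import Pool.Agent.MP_fdcf9c_lc.Degrees

namespace Pool.Agent.MP_fdcf9c_lc

section comp

variable {α β σ : Type} [Primcodable α] [Primcodable β] [Primcodable σ]

lemma computable_map {f : α → List β} {g : α → β → σ} (hf : Computable f) (hg : Computable₂ g) :
    Computable fun a => (f a).map (g a) := by
  have h1 : Computable fun a => (f a).foldr (fun b s => g a b :: s) [] := by
    refine computable_foldr (h := fun (a : α) (q : β × List σ) => g a q.1 :: q.2) hf
      (Computable.const []) ?_
    exact Computable.list_cons.comp
      (hg.comp Computable.fst (Computable.fst.comp Computable.snd))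
      (Computable.snd.comp Computable.snd)
  refine h1.of_eq fun a => ?_
  induction f a with
  | nil => rfl
  | cons b l ih => rw [List.foldr_cons, ih, List.map_cons]

lemma computable_flatMap {f : α → List β} {g : α → β → List σ} (hf : Computable f)
    (hg : Computable₂ g) : Computable fun a => (f a).flatMap (g a) := by
  have h1 : Computable fun a => (f a).foldr (fun b s => g a b ++ s) [] := by
    refine computable_foldr (h := fun (a : α) (q : β × List σ) => g a q.1 ++ q.2) hf
      (Computable.const []) ?_
    exact Computable.list_append.comp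
      (hg.comp Computable.fst (Computable.fst.comp Computable.snd))
      (Computable.snd.comp Computable.snd)
  refine h1.of_eq fun a => ?_
  induction f a with
  | nil => rfl
  | cons b l ih => rw [List.foldr_cons, ih, List.flatMap_cons]

lemma computable_all {f : α → List β} {g : α → β → Bool} (hf : Computable f)
    (hg : Computable₂ g) : Computable fun a => (f a).all (g a) := by
  have h1 : Computable fun a => (f a).foldr (fun b s => g a b && s) true := by
    refine computable_foldr (h := fun (a : α) (q : β × Bool) => g a q.1 && q.2) hf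
      (Computable.const true) ?_
    exact Primrec.and.to_comp.comp
      (hg.comp Computable.fst (Computable.fst.comp Computable.snd))
      (Computable.snd.comp Computable.snd)
  refine h1.of_eq fun a => ?_
  induction f a with
  | nil => rfl
  | cons b l ih => rw [List.foldr_cons, ih, List.all_cons]

end comp

/-- number of occurrences -/
def cnt (p : ℕ × List ℕ) : ℕ := p.2.foldr (fun b s => if b = p.1 then s + 1 else s) 0

lemma cnt_eq (a : ℕ) (w : List ℕ) : cnt (a, w) = w.count a := by
  induction w with
  | nil => rfl
  | cons b w ih =>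
    rw [List.count_cons, ← ih, cnt, List.foldr_cons]
    by_cases h : b = a <;> simp [h, cnt]

lemma primrec_cnt : Primrec cnt := by
  refine Primrec.list_foldr (h := fun (p : ℕ × List ℕ) (q : ℕ × ℕ) =>
    if q.1 = p.1 then q.2 + 1 else q.2) Primrec.snd (Primrec.const 0) ?_
  refine Primrec.ite ?_ ?_ ?_
  · exact Primrec.eq.comp (Primrec.fst.comp Primrec.snd) (Primrec.fst.comp Primrec.fst)
  · exact Primrec.succ.comp (Primrec.snd.comp Primrec.snd)
  · exact Primrec.snd.comp Primrec.snd

/-- test for permutations -/
def permB (p : List ℕ × List ℕ) : Bool :=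
  (p.1 ++ p.2).all fun a => decide (cnt (a, p.1) = cnt (a, p.2))

lemma permB_iff (w w' : List ℕ) : permB (w, w') = true ↔ w.Perm w' := by
  rw [permB, List.all_eq_true, List.perm_iff_count]
  simp only [decide_eq_true_eq, cnt_eq]
  constructor
  · intro h a
    by_cases ha : a ∈ w ++ w'
    · exact h a ha
    · rw [List.mem_append, not_or] at ha
      rw [List.count_eq_zero_of_not_mem ha.1, List.count_eq_zero_of_not_mem ha.2]
  · intro h a _
    exact h a

lemma computable_permB : Computable permB := by
  refine computable_all (Computable.list_append.comp Computable.fst Computable.snd) ?_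
  have h : Primrec fun q : (List ℕ × List ℕ) × ℕ =>
      decide (cnt (q.2, q.1.1) = cnt (q.2, q.1.2)) := by
    refine (Primrec.eq.comp ?_ ?_).decide
    · exact primrec_cnt.comp (Primrec.pair Primrec.snd (Primrec.fst.comp Primrec.fst))
    · exact primrec_cnt.comp (Primrec.pair Primrec.snd (Primrec.snd.comp Primrec.fst))
  exact h.to_comp

/-- Codes of polynomials: `(c, w)` stands for the constant `c` times the product of the variables
in the list `w`, and a list stands for the sum of its entries. -/
abbrev Pol := List (ℕ × List ℕ)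

namespace ComputableField

variable (A : ComputableField)

/-- value of a coded polynomial -/
noncomputable def val {R : Type} [CommRing R] [Algebra A.Elem R] (v : ℕ → R) (L : Pol) : R :=
  (L.map fun x => algebraMap A.Elem R (A.ret x.1) * (x.2.map v).prod).sum

section val

variable {R S : Type} [CommRing R] [Algebra A.Elem R] [CommRing S] [Algebra A.Elem S] (v : ℕ → R)

@[simp] lemma val_nil : A.val v [] = 0 := rfl

@[simp] lemma val_cons (x : ℕ × List ℕ) (L : Pol) : A.val v (x :: L) =
    algebraMap A.Elem R (A.ret x.1) * (x.2.map v).prod + A.val v L := by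
  simp [val]

@[simp] lemma val_append (L L' : Pol) : A.val v (L ++ L') = A.val v L + A.val v L' := by
  simp [val]

lemma val_map_hom (φ : R →ₐ[A.Elem] S) (L : Pol) : φ (A.val v L) = A.val (fun a => φ (v a)) L := by
  induction L with
  | nil => simp
  | cons x L ih =>
    rw [val_cons, val_cons, map_add, ih, map_mul, AlgHom.commutes, map_list_prod, List.map_map]
    rfl

/-- multiplication of a coded polynomial by a coded monomial -/
noncomputable def mulM (x : ℕ × List ℕ) (L : Pol) : Pol :=
  L.map fun y => (A.mulN (x.1, y.1), x.2 ++ y.2)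

lemma val_mulM (x : ℕ × List ℕ) (L : Pol) : A.val v (A.mulM x L) =
    algebraMap A.Elem R (A.ret x.1) * (x.2.map v).prod * A.val v L := by
  induction L with
  | nil => simp [mulM]
  | cons y L ih =>
    rw [mulM, List.map_cons, val_cons, val_cons, ← mulM, ih]
    rw [mulN, ret_coe, map_mul, List.map_append, List.prod_append]
    ring

end val

/-- exponent vector of a word -/
noncomputable def expVec (w : List ℕ) : ℕ →₀ ℕ := Multiset.toFinsupp (w : Multiset ℕ)

lemma expVec_eq_iff (w w' : List ℕ) : expVec w = expVec w' ↔ permB (w, w') = true := by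
  rw [permB_iff, expVec, expVec, (Multiset.toFinsupp).injective.eq_iff, Multiset.coe_eq_coe]

lemma prod_X (w : List ℕ) : (w.map (MvPolynomial.X : ℕ → MvPolynomial ℕ A.Elem)).prod =
    MvPolynomial.monomial (expVec w) 1 := by
  induction w with
  | nil =>
    simp only [List.map_nil, List.prod_nil, expVec, Multiset.coe_nil, map_zero]
    rfl
  | cons a w ih =>
    rw [List.map_cons, List.prod_cons, ih, MvPolynomial.X, MvPolynomial.monomial_mul, one_mul]
    congr 1
    rw [expVec, expVec, ← Multiset.cons_coe, ← Multiset.singleton_add, map_add,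
      Multiset.toFinsupp_singleton]

lemma coeff_val (L : Pol) (μ : ℕ →₀ ℕ) :
    MvPolynomial.coeff μ (A.val (MvPolynomial.X : ℕ → MvPolynomial ℕ A.Elem) L) =
      (L.map fun x => if expVec x.2 = μ then A.ret x.1 else 0).sum := by
  induction L with
  | nil => simp
  | cons x L ih =>
    rw [val_cons, MvPolynomial.coeff_add, ih, List.map_cons, List.sum_cons, prod_X,
      MvPolynomial.algebraMap_eq, MvPolynomial.coeff_C_mul, MvPolynomial.coeff_monomial]
    simp

/-- the code of the coefficient of the word `p.1` in the coded polynomial `p.2` -/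
noncomputable def coefN (p : List ℕ × Pol) : ℕ :=
  p.2.foldr (fun x s => cond (permB (x.2, p.1)) (A.addN (x.1, s)) s) ((0 : A.Elem) : ℕ)

lemma coefN_eq (w : List ℕ) (L : Pol) : A.coefN (w, L) =
    (MvPolynomial.coeff (expVec w) (A.val (MvPolynomial.X : ℕ → MvPolynomial ℕ A.Elem) L) :
      A.Elem) := by
  rw [coeff_val]
  induction L with
  | nil => rfl
  | cons x L ih =>
    rw [List.map_cons, List.sum_cons, coefN, List.foldr_cons]
    simp only [coefN] at ih
    rw [ih]
    by_cases h : expVec x.2 = expVec w
    · rw [if_pos h, (expVec_eq_iff _ _).mp h, cond_true, addN, ret_coe]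
    · rw [if_neg h, zero_add]
      have : permB (x.2, w) = false := by
        rw [Bool.eq_false_iff]
        exact fun h' => h ((expVec_eq_iff _ _).mpr h')
      rw [this, cond_false]

lemma computable_coefN : Computable A.coefN := by
  refine computable_foldr (h := fun (p : List ℕ × Pol) (q : (ℕ × List ℕ) × ℕ) =>
    cond (permB (q.1.2, p.1)) (A.addN (q.1.1, q.2)) q.2) Computable.snd (Computable.const _) ?_
  refine Computable.cond ?_ ?_ ?_
  · exact computable_permB.comp (Computable.pair
      (Computable.snd.comp (Computable.fst.comp Computable.snd))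
      (Computable.fst.comp Computable.fst))
  · exact A.computable_addN.comp (Computable.pair
      (Computable.fst.comp (Computable.fst.comp Computable.snd))
      (Computable.snd.comp Computable.snd))
  · exact Computable.snd.comp Computable.snd

/-- test whether a coded polynomial is zero -/
noncomputable def zeroTest (L : Pol) : Bool :=
  L.all fun x => decide (A.coefN (x.2, L) = ((0 : A.Elem) : ℕ))

lemma zeroTest_iff (L : Pol) : A.zeroTest L = true ↔
    A.val (MvPolynomial.X : ℕ → MvPolynomial ℕ A.Elem) L = 0 := by
  rw [zeroTest, List.all_eq_true]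
  simp only [decide_eq_true_eq, coefN_eq]
  constructor
  · intro h
    refine MvPolynomial.ext _ _ fun μ => ?_
    rw [MvPolynomial.coeff_zero]
    by_cases hμ : ∃ x ∈ L, expVec x.2 = μ
    · obtain ⟨x, hx, rfl⟩ := hμ
      exact Subtype.ext (h x hx)
    · push Not at hμ
      rw [coeff_val]
      refine List.sum_eq_zero ?_
      intro y hy
      obtain ⟨x, hx, rfl⟩ := List.mem_map.mp hy
      rw [if_neg (hμ x hx)]
  · intro h x _
    rw [h, MvPolynomial.coeff_zero]

lemma computable_zeroTest : Computable A.zeroTest := by
  refine computable_all Computable.id ?_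
  have h1 : Computable fun q : Pol × (ℕ × List ℕ) => A.coefN (q.2.2, q.1) :=
    A.computable_coefN.comp (Computable.pair (Computable.snd.comp Computable.snd) Computable.fst)
  exact (Primrec.eq (α := ℕ)).decide.to_comp.comp h1 (Computable.const _)

/-- every polynomial has a code -/
lemma exists_pol (P : MvPolynomial ℕ A.Elem) :
    ∃ L : Pol, A.val (MvPolynomial.X : ℕ → MvPolynomial ℕ A.Elem) L = P := by
  induction P using MvPolynomial.induction_on' with
  | monomial u a =>
    refine ⟨[((a : ℕ), (Finsupp.toMultiset u).toList)], ?_⟩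
    rw [val_cons, val_nil, add_zero, ret_coe, prod_X, MvPolynomial.algebraMap_eq,
      MvPolynomial.C_mul_monomial, mul_one]
    congr 1
    simp [expVec]
  | add p q hp hq =>
    obtain ⟨L, hL⟩ := hp
    obtain ⟨L', hL'⟩ := hq
    exact ⟨L ++ L', by rw [val_append, hL, hL']⟩

/-! ### Certificates of inconsistency -/

/-- The combination of the equations `eqn 0, eqn 1, …` coded by a certificate. -/
noncomputable def comb (eqn : ℕ → Pol) (c : List ((ℕ × List ℕ) × ℕ)) : Pol :=
  c.flatMap fun x => A.mulM x.1 (eqn x.2)

/-- `c` certifies that the system `eqn` is inconsistent: the combination is `1`. -/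
noncomputable def certB (eqn : ℕ → Pol) (c : List ((ℕ × List ℕ) × ℕ)) : Bool :=
  A.zeroTest ((((-1 : A.Elem) : ℕ), []) :: A.comb eqn c)

lemma val_comb {R : Type} [CommRing R] [Algebra A.Elem R] (v : ℕ → R) (eqn : ℕ → Pol)
    (c : List ((ℕ × List ℕ) × ℕ)) : A.val v (A.comb eqn c) =
      (c.map fun x => algebraMap A.Elem R (A.ret x.1.1) * (x.1.2.map v).prod *
        A.val v (eqn x.2)).sum := by
  induction c with
  | nil => simp [comb]
  | cons x c ih =>
    rw [comb, List.flatMap_cons, val_append, ← comb, ih, val_mulM]
    simp

/-- Soundness of certificates. -/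
lemma certB_sound {eqn : ℕ → Pol} {c : List ((ℕ × List ℕ) × ℕ)} (hc : A.certB eqn c = true)
    {R : Type} [CommRing R] [Nontrivial R] [Algebra A.Elem R] (v : ℕ → R) :
    ∃ a, A.val v (eqn a) ≠ 0 := by
  by_contra hcon
  push Not at hcon
  rw [certB, zeroTest_iff] at hc
  have h1 := congrArg (MvPolynomial.aeval v) hc
  rw [map_zero, val_map_hom] at h1
  simp only [MvPolynomial.aeval_X, val_cons, ret_coe, List.map_nil, List.prod_nil, mul_one,
    val_comb, hcon, mul_zero] at h1
  simp at h1

/-- Completeness of certificates. -/
lemma certB_complete (eqn : ℕ → Pol)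
    (h : ∀ (K' : Type) [Field K'] [Algebra A.Elem K'] (v : ℕ → K'),
      ∃ a, A.val v (eqn a) ≠ 0) :
    ∃ c : List ((ℕ × List ℕ) × ℕ), A.certB eqn c = true := by
  classical
  let e : ℕ → MvPolynomial ℕ A.Elem := fun a => A.val MvPolynomial.X (eqn a)
  let I : Ideal (MvPolynomial ℕ A.Elem) := Ideal.span (Set.range e)
  have hI : (1 : MvPolynomial ℕ A.Elem) ∈ I := by
    rw [← Ideal.eq_top_iff_one]
    by_contra hne
    obtain ⟨M, hM, hIM⟩ := Ideal.exists_le_maximal I hne
    let fld : Field (MvPolynomial ℕ A.Elem ⧸ M) := Ideal.Quotient.field M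
    obtain ⟨a, ha⟩ := h (MvPolynomial ℕ A.Elem ⧸ M)
      (fun a => Ideal.Quotient.mkₐ A.Elem M (MvPolynomial.X a))
    apply ha
    have h1 := A.val_map_hom (MvPolynomial.X : ℕ → MvPolynomial ℕ A.Elem)
      (Ideal.Quotient.mkₐ A.Elem M) (eqn a)
    refine h1.symm.trans ?_
    rw [Ideal.Quotient.mkₐ_eq_mk, Ideal.Quotient.eq_zero_iff_mem]
    exact hIM (Ideal.subset_span ⟨a, rfl⟩)
  have key : ∀ P ∈ I, ∃ c : List ((ℕ × List ℕ) × ℕ),
      A.val MvPolynomial.X (A.comb eqn c) = P := by
    intro P hP
    obtain ⟨c, hc⟩ := (Finsupp.mem_ideal_span_range_iff_exists_finsupp).mp hP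
    rw [← hc, Finsupp.sum]
    generalize c.support = s
    induction s using Finset.induction_on with
    | empty => exact ⟨[], by simp [comb]⟩
    | insert a s ha ih =>
      obtain ⟨l, hl⟩ := ih
      obtain ⟨L, hL⟩ := A.exists_pol (c a)
      refine ⟨(L.map fun x => (x, a)) ++ l, ?_⟩
      rw [Finset.sum_insert ha, ← hl, val_comb, val_comb, List.map_append, List.sum_append,
        ← hL, List.map_map]
      congr 1
      rw [val, ← List.sum_map_mul_right]
      rfl
  obtain ⟨c, hc⟩ := key 1 hI
  refine ⟨c, ?_⟩
  rw [certB, zeroTest_iff, val_cons, hc, ret_coe]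
  simp

end ComputableField

end Pool.Agent.MP_fdcf9c_lc
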