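import Pool.Agent.MP_fdcf9c_lc.Degrees

open Filter Polynomial

namespace Pool.Agent.MP_fdcf9c_lc

/-- the exponent of `y` in the `j`-th monomial of `y ^ (k ^ 0), y ^ (k ^ 1), …` -/
def expo (m n k j : ℕ) : ℕ := ∑ l ∈ Finset.range m, (j / n ^ l % n) * k ^ l

lemma mon_pow {R : Type} [CommRing R] (m n k : ℕ) (y : R) (j : ℕ) :
    mon m n (fun l => y ^ (k ^ l)) j = y ^ expo m n k j := by
  rw [mon, expo, ← Finset.prod_pow_eq_pow_sum]
  refine Finset.prod_congr rfl fun l _ => ?_
  rw [← pow_mul, mul_comm]

lemma expo_eq {m n k j : ℕ} (hj : j < n ^ m) (hnk : n ≤ k) :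
    expo m n k j = ((finFunctionFinEquiv (fun l : Fin m =>
      (Fin.castLE hnk (finFunctionFinEquiv.symm (⟨j, hj⟩ : Fin (n ^ m)) l) : Fin k))) : ℕ) := by
  rw [finFunctionFinEquiv_apply, expo, Finset.sum_range]
  rfl

lemma expo_lt {m n k j : ℕ} (hj : j < n ^ m) (hnk : n ≤ k) : expo m n k j < k ^ m := by
  rw [expo_eq hj hnk]
  exact Fin.is_lt _

lemma expo_inj {m n k j j' : ℕ} (hj : j < n ^ m) (hj' : j' < n ^ m) (hnk : n ≤ k)
    (h : expo m n k j = expo m n k j') : j = j' := by
  rw [expo_eq hj hnk, expo_eq hj' hnk] at h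
  have h1 := finFunctionFinEquiv.injective (Fin.ext h)
  have h2 : finFunctionFinEquiv.symm (⟨j, hj⟩ : Fin (n ^ m)) =
      finFunctionFinEquiv.symm (⟨j', hj'⟩ : Fin (n ^ m)) := by
    funext l
    have h3 := congrFun h1 l
    exact Fin.castLE_injective hnk h3
  exact congrArg Fin.val (finFunctionFinEquiv.symm.injective h2)

/-- Powers of an element of large degree are unrelated. -/
lemma pow_not_rel {F R : Type} [Field F] [CommRing R] [Algebra F R] {m n k : ℕ} (hnk : n ≤ k)
    (y : R) (hy : ∀ q : F[X], q ≠ 0 → q.natDegree < k ^ m → aeval y q ≠ 0) :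
    ¬ Rel F m n (fun l => y ^ (k ^ l)) := by
  classical
  rintro ⟨p, ⟨j₀, hj₀, hp⟩, h0⟩
  let q : F[X] := ∑ j ∈ Finset.range (n ^ m), C (p j) * X ^ expo m n k j
  have hq0 : q ≠ 0 := by
    intro hq
    have h1 : q.coeff (expo m n k j₀) = p j₀ := by
      simp only [q, finsetSum_coeff, coeff_C_mul, coeff_X_pow]
      rw [Finset.sum_eq_single j₀]
      · simp
      · intro j hj hjj
        rw [if_neg, mul_zero]
        intro h
        exact hjj (expo_inj hj₀ (Finset.mem_range.mp hj) hnk h).symm
      · intro h
        exact absurd (Finset.mem_range.mpr hj₀) h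
    rw [hq, coeff_zero] at h1
    exact hp h1.symm
  have hqd : q.natDegree < k ^ m := by
    have hpos : 0 < k ^ m := (Nat.zero_le _).trans_lt (expo_lt hj₀ hnk)
    refine lt_of_le_of_lt (natDegree_sum_le_of_forall_le (n := k ^ m - 1) _ _ ?_) (by omega)
    intro j hj
    refine (natDegree_C_mul_X_pow_le _ _).trans ?_
    have := expo_lt (Finset.mem_range.mp hj) hnk
    omega
  apply hy q hq0 hqd
  rw [← h0]
  simp only [q, map_sum, map_mul, aeval_C, map_pow, aeval_X]
  refine Finset.sum_congr rfl fun j _ => ?_
  rw [mon_pow]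

lemma primrec_pow_const (l : ℕ) : Primrec fun i : ℕ => i ^ l := by
  induction l with
  | zero => exact (Primrec.const 1).of_eq fun i => (pow_zero i).symm
  | succ l ih =>
    exact (Primrec.nat_mul.comp ih Primrec.id).of_eq fun i => (pow_succ i l).symm

lemma eventually_ge {C : Set ℕ} (n : ℕ) : ∀ᶠ i in ae C, n ≤ i := by
  have h : ∀ᶠ i in cofinite, n ≤ i := by
    rw [Nat.cofinite_eq_atTop]
    exact eventually_ge_atTop n
  exact h.filter_mono inf_le_left

/-- The transcendental case. -/
theorem indep_of_transcendental {C : Set ℕ} (hC : Cohesive C) (E : ComputableExtension)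
    (t : E.K.Elem) (ht : Transcendental E.F.Elem t) (m : ℕ) :
    ∃ x : Fin m → CohesivePower C E.K, AlgebraicIndependent (CohesivePower C E.F) x := by
  have hz : ∀ l : ℕ, IsPC C E.K fun i => t ^ (i ^ l) := by
    intro l
    refine ⟨fun i => Part.some (E.K.powN ((t : ℕ), i ^ l)), ?_, ?_⟩
    · exact (E.K.computable_powN'.comp (Computable.pair (Computable.const _)
        (primrec_pow_const l).to_comp)).partrec
    · refine Eventually.of_forall fun i => ?_
      simp [ComputableField.powN]
  refine ⟨_, indep hC E m (fun l i => t ^ (i ^ l)) hz ?_⟩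
  intro n
  filter_upwards [eventually_ge n] with i hi
  refine pow_not_rel hi t ?_
  intro q hq _ h
  exact ht ⟨q, hq, h⟩

/-- Degrees over a finite field in terms of the Frobenius map. -/
lemma pow_card_pow_natDegree {F K : Type} [Field F] [Finite F] [Field K] [Algebra F K] (y : K)
    (hy : IsIntegral F y) : y ^ (Nat.card F) ^ (minpoly F y).natDegree = y := by
  have : FiniteDimensional F (IntermediateField.adjoin F {y}) :=
    IntermediateField.adjoin.finiteDimensional hy
  have : Finite (IntermediateField.adjoin F {y}) := Module.finite_of_finite F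
  have := Fintype.ofFinite (IntermediateField.adjoin F {y})
  have := Fintype.ofFinite F
  have h1 := FiniteField.pow_card (IntermediateField.AdjoinSimple.gen F y)
  rw [Module.card_eq_pow_finrank (K := F) (V := IntermediateField.adjoin F {y}),
    IntermediateField.adjoin.finrank hy] at h1
  have h2 := congrArg (algebraMap (IntermediateField.adjoin F {y}) K) h1
  rw [map_pow, IntermediateField.AdjoinSimple.algebraMap_gen] at h2
  rwa [Nat.card_eq_fintype_card]

lemma natDegree_le_of_pow {F K : Type} [Field F] [Finite F] [Field K] [Algebra F K] (y : K)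
    (hy : IsIntegral F y) (e : ℕ) (he : 0 < e) (h : y ^ (Nat.card F) ^ e = y) :
    (minpoly F y).natDegree ≤ e := by
  classical
  have := Fintype.ofFinite F
  have hfd : FiniteDimensional F (IntermediateField.adjoin F {y}) :=
    IntermediateField.adjoin.finiteDimensional hy
  have : Finite (IntermediateField.adjoin F {y}) := Module.finite_of_finite F
  have := Fintype.ofFinite (IntermediateField.adjoin F {y})
  set q := Nat.card F with hq
  have hq1 : 1 < q := by
    rw [hq]
    exact Finite.one_lt_card
  -- every element of `F(y)` is fixed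
  have hfix : ∀ w : K, w ∈ IntermediateField.adjoin F {y} → w ^ q ^ e = w := by
    intro w hw
    have hF : w ∈ Algebra.adjoin F {y} := by
      rw [← IntermediateField.adjoin_simple_toSubalgebra_of_isAlgebraic hy.isAlgebraic]
      exact hw
    rw [Algebra.adjoin_singleton_eq_range_aeval] at hF
    obtain ⟨g, rfl⟩ := hF
    have h1 := FiniteField.expand_card g
    have h2 : ∀ e : ℕ, (aeval y g) ^ q ^ e = aeval (y ^ q ^ e) g := by
      intro e
      induction e with
      | zero => simp
      | succ e ih =>
        rw [pow_succ, pow_mul, ih]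
        have h3 := congrArg (aeval (y ^ q ^ e)) h1
        rw [expand_aeval, map_pow, ← Nat.card_eq_fintype_card, ← hq] at h3
        rw [← h3, ← pow_mul]
    change (aeval y g) ^ q ^ e = aeval y g
    rw [h2, h]
  have hcard : Fintype.card (IntermediateField.adjoin F {y}) = q ^ (minpoly F y).natDegree := by
    rw [Module.card_eq_pow_finrank (K := F) (V := IntermediateField.adjoin F {y}),
      IntermediateField.adjoin.finrank hy, hq, Nat.card_eq_fintype_card]
  have hroots : Fintype.card (IntermediateField.adjoin F {y}) ≤ q ^ e := by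
    let P : (IntermediateField.adjoin F {y})[X] := X ^ q ^ e - X
    have hlt : 1 < q ^ e := Nat.one_lt_pow he.ne' hq1
    have hPd : P.natDegree = q ^ e := FiniteField.X_pow_card_pow_sub_X_natDegree_eq _ he.ne' hq1
    have hP0 : P ≠ 0 := FiniteField.X_pow_card_pow_sub_X_ne_zero _ he.ne' hq1
    rw [← hPd, ← Finset.card_univ]
    refine (Finset.card_le_card ?_).trans ((Multiset.toFinset_card_le _).trans (card_roots' P))
    intro w _
    rw [Multiset.mem_toFinset, mem_roots hP0, IsRoot.def]
    simp only [P, eval_sub, eval_pow, eval_X]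
    rw [sub_eq_zero]
    apply Subtype.ext
    exact hfix w.1 w.2
  rw [hcard] at hroots
  exact (Nat.pow_le_pow_iff_right hq1).mp hroots

/-- integer `m`-th root -/
def root (m d : ℕ) : ℕ := Nat.findGreatest (fun k => k ^ m ≤ d) d

lemma root_pow_le {m d : ℕ} (hd : 0 < d) : root m d ^ m ≤ d := by
  rw [root]
  by_cases h : Nat.findGreatest (fun k => k ^ m ≤ d) d = 0
  · rw [h]
    rcases Nat.eq_zero_or_pos m with rfl | hm
    · rw [pow_zero]
      omega
    · rw [zero_pow hm.ne']
      exact Nat.zero_le _
  · exact Nat.findGreatest_of_ne_zero (P := fun k => k ^ m ≤ d) rfl h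

lemma le_root {m d k : ℕ} (h1 : k ≤ d) (h2 : k ^ m ≤ d) : k ≤ root m d := by
  by_contra hcon
  rw [not_le] at hcon
  exact Nat.findGreatest_is_greatest (P := fun k => k ^ m ≤ d) hcon h1 h2

lemma primrec_root (m : ℕ) : Primrec (root m) := by
  refine Primrec.nat_findGreatest (p := fun d k => k ^ m ≤ d) Primrec.id ?_
  exact Primrec.nat_le.comp ((primrec_pow_const m).comp Primrec.snd) Primrec.fst

lemma primrec_const_pow (q : ℕ) : Primrec fun d : ℕ => q ^ d := by
  have h : Primrec fun d : ℕ => (Nat.rec 1 (fun _ s => s * q) d : ℕ) :=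
    Primrec.nat_rec' (h := fun _ p => p.2 * q) Primrec.id (Primrec.const 1)
      (Primrec.nat_mul.comp (Primrec.snd.comp Primrec.snd) (Primrec.const q))
  refine h.of_eq fun d => ?_
  induction d with
  | zero => rfl
  | succ d ih =>
    rw [pow_succ, ← ih]

/-- The case of a finite base field. -/
theorem indep_of_finite {C : Set ℕ} (hC : Cohesive C) (E : ComputableExtension)
    [Finite E.F.Elem] (halg : Algebra.IsAlgebraic E.F.Elem E.K.Elem) (f : ℕ → E.K.Elem)
    (hf : IsPC C E.K f)
    (hdeg : ∀ D, ∀ᶠ i in ae C, D < (minpoly E.F.Elem (f i)).natDegree) (m : ℕ) :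
    ∃ x : Fin m → CohesivePower C E.K, AlgebraicIndependent (CohesivePower C E.F) x := by
  classical
  have hint : ∀ y : E.K.Elem, IsIntegral E.F.Elem y := fun y =>
    (halg.isAlgebraic y).isIntegral
  obtain ⟨φ, hφ, hφ'⟩ := id hf
  set q := Nat.card E.F.Elem with hq
  -- the search for the degree
  let p : ℕ → ℕ →. Bool := fun a d =>
    Part.some (decide (E.K.powN (a, q ^ (d + 1)) = a))
  have hp : Partrec₂ p := by
    have h1 : Computable fun x : ℕ × ℕ => decide (E.K.powN (x.1, q ^ (x.2 + 1)) = x.1) := by
      refine (Primrec.eq (α := ℕ)).decide.to_comp.comp ?_ Computable.fst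
      exact E.K.computable_powN'.comp (Computable.pair Computable.fst
        ((primrec_const_pow q).comp (Primrec.succ.comp Primrec.snd)).to_comp)
    exact h1.partrec
  have hrf : Partrec fun a => Nat.rfind (p a) := Partrec.rfind hp
  have hval : ∀ y : E.K.Elem, ((minpoly E.F.Elem y).natDegree - 1) ∈ Nat.rfind (p y) := by
    intro y
    have hpos : 0 < (minpoly E.F.Elem y).natDegree := minpoly.natDegree_pos (hint y)
    rw [Nat.mem_rfind]
    constructor
    · simp only [p, Part.mem_some_iff]
      symm
      rw [decide_eq_true_eq, Nat.sub_add_cancel hpos, ComputableField.powN,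
        ComputableField.ret_coe]
      exact congrArg Subtype.val (pow_card_pow_natDegree y (hint y))
    · intro j hj
      simp only [p, Part.mem_some_iff]
      symm
      rw [decide_eq_false_iff_not, ComputableField.powN, ComputableField.ret_coe]
      intro h
      have := natDegree_le_of_pow y (hint y) (j + 1) (Nat.succ_pos j) (Subtype.ext h)
      omega
  let k : ℕ → ℕ := fun i => root m (minpoly E.F.Elem (f i)).natDegree
  have hz : ∀ l : ℕ, IsPC C E.K fun i => f i ^ (k i ^ l) := by
    intro l
    refine ⟨fun i => (φ i).bind fun a => (Nat.rfind (p a)).map fun d =>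
      E.K.powN (a, root m (d + 1) ^ l), ?_, ?_⟩
    · refine hφ.bind ?_
      have h1 : Partrec fun x : ℕ × ℕ => Nat.rfind (p x.2) :=
        hrf.comp (Computable.snd (α := ℕ) (β := ℕ))
      have h2 : Computable fun x : (ℕ × ℕ) × ℕ => E.K.powN (x.1.2, root m (x.2 + 1) ^ l) := by
        refine E.K.computable_powN'.comp (Computable.pair
          (Computable.snd.comp Computable.fst) ?_)
        exact ((primrec_pow_const l).comp ((primrec_root m).comp
          (Primrec.succ.comp Primrec.snd))).to_comp
      exact h1.map h2.to₂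
    · filter_upwards [hφ'] with i hi
      rw [Part.mem_bind_iff]
      refine ⟨_, hi, ?_⟩
      rw [Part.mem_map_iff]
      refine ⟨_, hval (f i), ?_⟩
      have hpos : 0 < (minpoly E.F.Elem (f i)).natDegree := minpoly.natDegree_pos (hint (f i))
      simp only [k, Nat.sub_add_cancel hpos, ComputableField.powN, ComputableField.ret_coe]
  refine ⟨_, indep hC E m (fun l i => f i ^ (k i ^ l)) hz ?_⟩
  intro n
  filter_upwards [hdeg (n + n ^ m)] with i hi
  have hpos : 0 < (minpoly E.F.Elem (f i)).natDegree := minpoly.natDegree_pos (hint (f i))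
  refine pow_not_rel (k := k i) ?_ (f i) ?_
  · exact le_root (by omega) (by omega)
  · intro g hg hgd h0
    have h1 := minpoly.degree_le_of_ne_zero E.F.Elem (f i) hg h0
    have h2 := natDegree_le_natDegree h1
    have h3 := root_pow_le (m := m) hpos
    simp only [k] at hgd
    omega

end Pool.Agent.MP_fdcf9c_lc
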