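import Pool.Agent.MP_fdcf9c_lc.System

open Polynomial

namespace Pool.Agent.MP_fdcf9c_lc

namespace ComputableExtension

variable (E : ComputableExtension)

section val

variable {R : Type} [CommRing R] [Algebra E.F.Elem R] (v : ℕ → R)

lemma val_eq0 (m n : ℕ) : E.F.val v (E.eq0 m n) =
    -1 + ∑ k ∈ Finset.range (n ^ m), v (5 * k) * v (5 * k + 1) := by
  rw [eq0, ComputableField.val_cons, ComputableField.val_range_map]
  simp

lemma val_eq1 (m n : ℕ) (f : List ℕ) : E.F.val v (E.eq1 m (f, n)) =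
    -1 + ∑ j ∈ Finset.range (f.length - n ^ m), v (5 * j + 2) * v (5 * j + 3) := by
  rw [eq1, ComputableField.val_cons, ComputableField.val_range_map]
  simp

lemma val_eq2 (m n : ℕ) (f : List ℕ) (Bs : List (List ℕ)) (s : ℕ) :
    E.F.val v (E.eq2 m (((f, Bs), n), s)) =
    (∑ j ∈ Finset.range (f.length - n ^ m), v (5 * j + 2) *
        algebraMap E.F.Elem R (E.F.ret s) ^ j) *
      (∑ k ∈ Finset.range (n ^ m), v (5 * k) * algebraMap E.F.Elem R (E.mv m n Bs s k)) -
    algebraMap E.F.Elem R ((E.poly f).eval (E.F.ret s)) *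
      ∑ t ∈ Finset.range (bd m ((f, Bs), n)), v (5 * t + 4) *
        algebraMap E.F.Elem R (E.F.ret s) ^ t := by
  rw [eq2, ComputableField.val_append, ComputableField.val_range_flatMap,
    ComputableField.val_range_map, sub_eq_add_neg]
  congr 1
  · rw [Finset.sum_mul_sum]
    refine Finset.sum_congr rfl fun j _ => ?_
    rw [ComputableField.val_range_map]
    refine Finset.sum_congr rfl fun k _ => ?_
    simp only [ComputableField.mulN, ComputableField.powN, ComputableField.ret_coe, map_mul,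
      map_pow, List.map_cons, List.map_nil, List.prod_cons, List.prod_nil, mul_one]
    ring
  · rw [Finset.mul_sum, ← Finset.sum_neg_distrib]
    refine Finset.sum_congr rfl fun t _ => ?_
    have h5 : E.self.evN (f, s) = ((E.poly f).eval (E.F.ret s) : E.F.Elem) :=
      congrArg Subtype.val (E.self_ev f (E.F.ret s))
    dsimp only
    rw [h5]
    simp only [ComputableField.mulN, ComputableField.powN, ComputableField.ret_coe, map_mul,
      map_pow, map_neg, map_one, List.map_cons, List.map_nil, List.prod_cons, List.prod_nil,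
      mul_one]
    ring

end val

lemma eqn_zero (m : ℕ) (x : (List ℕ × List (List ℕ)) × ℕ) : E.eqn m x 0 = E.eq0 m x.2 := rfl

lemma eqn_one (m : ℕ) (x : (List ℕ × List (List ℕ)) × ℕ) :
    E.eqn m x 1 = E.eq1 m (x.1.1, x.2) := rfl

lemma eqn_add_two (m : ℕ) (x : (List ℕ × List (List ℕ)) × ℕ) (s : ℕ) :
    E.eqn m x (s + 2) = E.eq2 m (x, s) := by
  simp [eqn]

lemma poly_natDegree_lt_length (l : List ℕ) (h : E.poly l ≠ 0) :
    (E.poly l).natDegree < l.length := by
  by_contra hcon
  rw [not_lt] at hcon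
  exact (leadingCoeff_ne_zero.mpr h) (E.poly_natDegree_lt l _ hcon)

lemma natDegree_mon_le {R : Type} [CommRing R] (m n : ℕ) (B : ℕ → R[X]) (L : ℕ → ℕ)
    (hB : ∀ l, (B l).natDegree ≤ L l) (k : ℕ) (hn : 0 < n) :
    (mon m n B k).natDegree ≤ n * ∑ l ∈ Finset.range m, L l := by
  rw [mon, Finset.mul_sum]
  refine (natDegree_prod_le _ _).trans (Finset.sum_le_sum fun l _ => ?_)
  exact natDegree_pow_le.trans (Nat.mul_le_mul (Nat.mod_lt _ hn).le (hB l))

lemma eval_mon {R : Type} [CommRing R] (m n : ℕ) (B : ℕ → R[X]) (s : R) (k : ℕ) :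
    (mon m n B k).eval s = mon m n (fun l => (B l).eval s) k :=
  mon_map (evalRingHom s) m n B k

lemma aeval_mon {R S : Type} [CommRing R] [CommRing S] [Algebra R S] (m n : ℕ) (B : ℕ → R[X])
    (s : S) (k : ℕ) :
    aeval s (mon m n B k) = mon m n (fun l => aeval s (B l)) k :=
  mon_map (aeval s : R[X] →ₐ[R] S).toRingHom m n B k

/-- Soundness: certified polynomials give unrelated elements. -/
theorem cert_sound (m n : ℕ) (f : List ℕ) (Bs : List (List ℕ)) (c : List ((ℕ × List ℕ) × ℕ))
    (hc : E.F.certB (E.eqn m ((f, Bs), n)) c = true) (hf : E.poly f ≠ 0) (x : E.K.Elem)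
    (hx : E.ev f x = 0) (hint : IsIntegral E.F.Elem x)
    (hd : n ^ m ≤ (minpoly E.F.Elem x).natDegree) :
    ¬ Rel E.F.Elem m n (fun l => E.ev (Bs.getD l []) x) := by
  classical
  rintro ⟨p, ⟨k₀, hk₀, hp⟩, h0⟩
  set g := minpoly E.F.Elem x with hg
  have hgm : g.Monic := minpoly.monic hint
  set P : E.F.Elem[X] := ∑ k ∈ Finset.range (n ^ m), C (p k) * mon m n (E.pl Bs) k with hP
  have hgP : g ∣ P := by
    refine minpoly.dvd _ _ ?_
    rw [hP, map_sum, ← h0]
    refine Finset.sum_congr rfl fun k _ => ?_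
    rw [map_mul, aeval_C, aeval_mon]
    congr 2
    funext l
    rw [ev_eq]
    rfl
  obtain ⟨q, hq⟩ := hgP
  have hgf : g ∣ E.poly f := by
    refine minpoly.dvd _ _ ?_
    rw [← ev_eq, hx]
  obtain ⟨h, hh⟩ := hgf
  have hh0 : h ≠ 0 := by
    rintro rfl
    exact hf (by rw [hh, mul_zero])
  have hlen := E.poly_natDegree_lt_length f hf
  have hdeg : (E.poly f).natDegree = g.natDegree + h.natDegree := by
    rw [hh, natDegree_mul hgm.ne_zero hh0]
  have hn : 0 < n := by
    rcases Nat.eq_zero_or_pos n with rfl | hn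
    · rcases Nat.eq_zero_or_pos m with rfl | hm
      · -- `m = 0`: the only relation is a constant
        exfalso
        have hk : k₀ = 0 := by simpa using hk₀
        subst hk
        simp [mon] at h0
        exact hp h0
      · rw [zero_pow hm.ne'] at hk₀
        exact absurd hk₀ (Nat.not_lt_zero _)
    · exact hn
  have hqd : q.natDegree < bd m ((f, Bs), n) := by
    have h1 : P.natDegree ≤ n * lenS m Bs := by
      refine natDegree_sum_le_of_forall_le _ _ fun k _ => ?_
      refine (natDegree_C_mul_le _ _).trans ?_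
      refine natDegree_mon_le m n (E.pl Bs) (fun l => (Bs.getD l []).length) ?_ k hn
      intro l
      by_cases h0 : E.pl Bs l = 0
      · rw [h0, natDegree_zero]
        exact Nat.zero_le _
      · exact (E.poly_natDegree_lt_length _ h0).le
    by_cases hq0 : q = 0
    · rw [hq0, natDegree_zero, bd]
      exact Nat.succ_pos _
    · rw [hq, natDegree_mul hgm.ne_zero hq0] at h1
      change q.natDegree < n * lenS m Bs + 1
      omega
  -- the assignment
  let v : ℕ → E.F.Elem := fun a =>
    if a % 5 = 0 then p (a / 5)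
    else if a % 5 = 1 then (if a / 5 = k₀ then (p k₀)⁻¹ else 0)
    else if a % 5 = 2 then h.coeff (a / 5)
    else if a % 5 = 3 then (if a / 5 = h.natDegree then h.leadingCoeff⁻¹ else 0)
    else q.coeff (a / 5)
  have hv0 : ∀ k, v (5 * k) = p k := by
    intro k
    simp [v]
  have hv1 : ∀ k, v (5 * k + 1) = if k = k₀ then (p k₀)⁻¹ else 0 := by
    intro k
    have h1 : (5 * k + 1) % 5 = 1 := by omega
    have h2 : (5 * k + 1) / 5 = k := by omega
    simp [v, h1, h2]
  have hv2 : ∀ k, v (5 * k + 2) = h.coeff k := by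
    intro k
    have h1 : (5 * k + 2) % 5 = 2 := by omega
    have h2 : (5 * k + 2) / 5 = k := by omega
    simp [v, h1, h2]
  have hv3 : ∀ k, v (5 * k + 3) = if k = h.natDegree then h.leadingCoeff⁻¹ else 0 := by
    intro k
    have h1 : (5 * k + 3) % 5 = 3 := by omega
    have h2 : (5 * k + 3) / 5 = k := by omega
    simp [v, h1, h2]
  have hv4 : ∀ k, v (5 * k + 4) = q.coeff k := by
    intro k
    have h1 : (5 * k + 4) % 5 = 4 := by omega
    have h2 : (5 * k + 4) / 5 = k := by omega
    simp [v, h1, h2]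
  obtain ⟨a, ha⟩ := E.F.certB_sound hc v
  apply ha
  match a with
  | 0 =>
    rw [eqn_zero, val_eq0]
    simp only [hv0, hv1, mul_ite, mul_zero]
    rw [Finset.sum_ite_eq', if_pos (Finset.mem_range.mpr hk₀), mul_inv_cancel₀ hp]
    simp
  | 1 =>
    rw [eqn_one, val_eq1]
    simp only [hv2, hv3, mul_ite, mul_zero]
    rw [Finset.sum_ite_eq', if_pos (Finset.mem_range.mpr (by omega)), coeff_natDegree,
      mul_inv_cancel₀ (leadingCoeff_ne_zero.mpr hh0)]
    simp
  | s + 2 =>
    rw [eqn_add_two, val_eq2]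
    simp only [hv0, hv2, hv4, Algebra.algebraMap_self, RingHom.id_apply]
    rw [← eval_eq_sum_range' (by omega) (E.F.ret s), ← eval_eq_sum_range' hqd (E.F.ret s)]
    have h1 : ∑ k ∈ Finset.range (n ^ m), p k * E.mv m n Bs s k = P.eval (E.F.ret s) := by
      rw [hP, eval_finsetSum]
      refine Finset.sum_congr rfl fun k _ => ?_
      rw [eval_mul, eval_C, eval_mon]
      rfl
    rw [h1, hq, hh, eval_mul, eval_mul]
    ring

/-- Completeness: generic polynomials have a certificate. -/
theorem cert_complete [Infinite E.F.Elem] (m n : ℕ) (f : List ℕ) (Bs : List (List ℕ))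
    (hf : E.poly f ≠ 0) (hlen : f.length ≤ (E.poly f).natDegree + 1)
    (hB : ∀ (K' : Type) [Field K'] [Algebra E.F.Elem K'] (g : K'[X]), g.Monic →
      g ∣ (E.poly f).map (algebraMap E.F.Elem K') → n ^ m ≤ g.natDegree → ∀ p : ℕ → K',
      (g ∣ ∑ k ∈ Finset.range (n ^ m), C (p k) * mon m n
        (fun l => (E.pl Bs l).map (algebraMap E.F.Elem K')) k) → ∀ k < n ^ m, p k = 0) :
    ∃ c : List ((ℕ × List ℕ) × ℕ), E.F.certB (E.eqn m ((f, Bs), n)) c = true := by
  classical
  refine E.F.certB_complete _ ?_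
  intro K' _ _ v
  by_contra hcon
  push Not at hcon
  set ι := algebraMap E.F.Elem K' with hι
  set J := f.length - n ^ m with hJ
  set P : K'[X] := ∑ k ∈ Finset.range (n ^ m), C (v (5 * k)) * mon m n
    (fun l => (E.pl Bs l).map ι) k with hP
  set a : K'[X] := ∑ j ∈ Finset.range J, C (v (5 * j + 2)) * X ^ j with ha
  set q : K'[X] := ∑ t ∈ Finset.range (bd m ((f, Bs), n)), C (v (5 * t + 4)) * X ^ t with hq
  -- the main identity
  have hmain : a * P = (E.poly f).map ι * q := by
    refine eq_of_infinite_eval_eq _ _ ?_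
    have h1 : (Set.range ι).Infinite := Set.infinite_range_of_injective ι.injective
    refine h1.mono ?_
    rintro _ ⟨s, rfl⟩
    change (a * P).eval (ι s) = ((E.poly f).map ι * q).eval (ι s)
    have h2 := hcon ((s : ℕ) + 2)
    rw [eqn_add_two, val_eq2, ComputableField.ret_coe, sub_eq_zero] at h2
    rw [eval_mul, eval_mul, eval_map_apply, ha, hP, hq, eval_finsetSum, eval_finsetSum,
      eval_finsetSum]
    simp only [eval_mul, eval_C, eval_pow, eval_X]
    refine Eq.trans ?_ h2
    congr 1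
    refine Finset.sum_congr rfl fun k _ => ?_
    congr 1
    rw [mv, mon_map ι, eval_mon]
    congr 1
    funext l
    rw [eval_map_apply, ComputableField.ret_coe]
  -- `u ≠ 0`
  obtain ⟨k₀, hk₀, hu⟩ : ∃ k < n ^ m, v (5 * k) ≠ 0 := by
    by_contra hcon'
    push Not at hcon'
    have h1 := hcon 0
    rw [eqn_zero, val_eq0, Finset.sum_eq_zero] at h1
    · simp at h1
    · intro k hk
      rw [hcon' k (Finset.mem_range.mp hk), zero_mul]
  -- `a ≠ 0`
  obtain ⟨j₀, hj₀, hvj⟩ : ∃ j < J, v (5 * j + 2) ≠ 0 := by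
    by_contra hcon'
    push Not at hcon'
    have h1 := hcon 1
    rw [eqn_one, val_eq1, Finset.sum_eq_zero] at h1
    · simp at h1
    · intro k hk
      rw [hcon' k (Finset.mem_range.mp hk), zero_mul]
  have hacoeff : ∀ j, a.coeff j = if j < J then v (5 * j + 2) else 0 := by
    intro j
    rw [ha, finsetSum_coeff]
    simp only [coeff_C_mul, coeff_X_pow, mul_ite, mul_one, mul_zero]
    rw [Finset.sum_ite_eq]
    simp
  have ha0 : a ≠ 0 := by
    intro h
    have h1 := hacoeff j₀
    rw [h, coeff_zero, if_pos hj₀] at h1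
    exact hvj h1.symm
  have had : a.natDegree < J := by
    by_contra hcon'
    have h1 := hacoeff a.natDegree
    rw [if_neg hcon'] at h1
    exact (leadingCoeff_ne_zero.mpr ha0) h1
  have hfK : (E.poly f).map ι ≠ 0 := (Polynomial.map_ne_zero_iff ι.injective).mpr hf
  obtain ⟨f₁, a₁, hf₁, ha₁, hcop⟩ := extract_gcd ((E.poly f).map ι) a
  set d := GCDMonoid.gcd ((E.poly f).map ι) a with hd
  have hd0 : d ≠ 0 := by
    intro h
    rw [h, zero_mul] at ha₁
    exact ha0 ha₁
  have hf₁0 : f₁ ≠ 0 := by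
    rintro rfl
    rw [mul_zero] at hf₁
    exact hfK hf₁
  have ha₁0 : a₁ ≠ 0 := by
    rintro rfl
    rw [mul_zero] at ha₁
    exact ha0 ha₁
  have hdvd : f₁ ∣ P := by
    have h1 : a₁ * P = f₁ * q := by
      rw [hf₁] at hmain
      rw [ha₁] at hmain
      have h2 : d * (a₁ * P) = d * (f₁ * q) := by
        rw [← mul_assoc, ← mul_assoc]
        exact hmain
      exact mul_left_cancel₀ hd0 h2
    have h3 : IsCoprime f₁ a₁ := (gcd_isUnit_iff f₁ a₁).mp hcop
    exact h3.dvd_of_dvd_mul_left ⟨q, h1⟩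
  have hdeg1 : ((E.poly f).map ι).natDegree = d.natDegree + f₁.natDegree := by
    conv_lhs => rw [hf₁]
    exact natDegree_mul hd0 hf₁0
  have hdeg2 : a.natDegree = d.natDegree + a₁.natDegree := by
    conv_lhs => rw [ha₁]
    exact natDegree_mul hd0 ha₁0
  have hdeg3 : ((E.poly f).map ι).natDegree = (E.poly f).natDegree := natDegree_map ι
  -- normalise
  have hlc : f₁.leadingCoeff⁻¹ ≠ 0 := inv_ne_zero (leadingCoeff_ne_zero.mpr hf₁0)
  let g : K'[X] := f₁ * C f₁.leadingCoeff⁻¹
  have hg : g.Monic := monic_mul_leadingCoeff_inv hf₁0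
  have hgd : g.natDegree = f₁.natDegree := natDegree_mul_C hlc
  have hunit : ∀ Q : K'[X], f₁ ∣ Q → g ∣ Q := by
    rintro Q ⟨Q', rfl⟩
    refine ⟨C f₁.leadingCoeff * Q', ?_⟩
    have : f₁ * C f₁.leadingCoeff⁻¹ * (C f₁.leadingCoeff * Q') =
      f₁ * Q' * C (f₁.leadingCoeff⁻¹ * f₁.leadingCoeff) := by
      rw [C_mul]
      ring
    rw [this, inv_mul_cancel₀ (leadingCoeff_ne_zero.mpr hf₁0), C_1, mul_one]
  refine hu (hB K' g hg (hunit _ ⟨d, ?_⟩) (by omega) (fun k => v (5 * k)) (hunit _ hdvd) k₀ hk₀)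
  rw [mul_comm]
  exact hf₁

end ComputableExtension

end Pool.Agent.MP_fdcf9c_lc
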