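import Pool.Agent.MP_fdcf9c_lc.Generic
import Pool.Agent.MP_fdcf9c_lc.Pol

open Polynomial

namespace Pool.Agent.MP_fdcf9c_lc

namespace ComputableField

variable (A : ComputableField)

lemma computable_mulM : Computable fun x : (ℕ × List ℕ) × Pol => A.mulM x.1 x.2 := by
  refine computable_map (f := fun x : (ℕ × List ℕ) × Pol => x.2) Computable.snd ?_
  have h1 : Computable fun q : ((ℕ × List ℕ) × Pol) × (ℕ × List ℕ) =>
      A.mulN (q.1.1.1, q.2.1) :=
    A.computable_mulN.comp (Computable.pair
      (Computable.fst.comp (Computable.fst.comp Computable.fst))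
      (Computable.fst.comp Computable.snd))
  have h2 : Computable fun q : ((ℕ × List ℕ) × Pol) × (ℕ × List ℕ) => q.1.1.2 ++ q.2.2 :=
    Computable.list_append.comp (Computable.snd.comp (Computable.fst.comp Computable.fst))
      (Computable.snd.comp Computable.snd)
  exact Computable.pair h1 h2

lemma computable_certB {α : Type} [Primcodable α] {eqn : α → ℕ → Pol}
    {c : α → List ((ℕ × List ℕ) × ℕ)} (heqn : Computable₂ eqn) (hc : Computable c) :
    Computable fun a => A.certB (eqn a) (c a) := by
  have h1 : Computable fun a => A.comb (eqn a) (c a) := by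
    refine computable_flatMap hc ?_
    exact A.computable_mulM.comp (Computable.pair (Computable.fst.comp Computable.snd)
      (heqn.comp Computable.fst (Computable.snd.comp Computable.snd)))
  exact A.computable_zeroTest.comp (Computable.list_cons.comp (Computable.const _) h1)

section val

variable {R : Type} [CommRing R] [Algebra A.Elem R] (v : ℕ → R)

lemma val_range_map (n : ℕ) (g : ℕ → ℕ × List ℕ) : A.val v ((List.range n).map g) =
    ∑ k ∈ Finset.range n, algebraMap A.Elem R (A.ret (g k).1) * ((g k).2.map v).prod := by
  induction n with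
  | zero => simp
  | succ n ih =>
    rw [List.range_succ, List.map_append, val_append, ih, Finset.sum_range_succ]
    simp

lemma val_range_flatMap (n : ℕ) (g : ℕ → Pol) : A.val v ((List.range n).flatMap g) =
    ∑ k ∈ Finset.range n, A.val v (g k) := by
  induction n with
  | zero => simp
  | succ n ih =>
    rw [List.range_succ, List.flatMap_append, val_append, ih, Finset.sum_range_succ]
    simp

end val

end ComputableField

namespace ComputableExtension

variable (E : ComputableExtension)

/-- the trivial extension `F/F` -/
noncomputable def self : ComputableExtension where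
  F := E.F
  K := E.F
  emb := RingHom.id _
  computable_emb := ⟨id, Computable.id, fun _ => rfl⟩

lemma self_ev (l : List ℕ) (y : E.F.Elem) : E.self.ev l y = (E.poly l).eval y := by
  rw [ev_eq, aeval_def, eval₂_eq_eval_map]
  congr 1
  exact Polynomial.map_id

/-- `l`-th polynomial of a list -/
noncomputable def pl (Bs : List (List ℕ)) (l : ℕ) : E.F.Elem[X] := E.poly (Bs.getD l [])

/-- value at the element coded by `s` of the `k`-th monomial in the polynomials of the list -/
noncomputable def mv (m n : ℕ) (Bs : List (List ℕ)) (s k : ℕ) : E.F.Elem :=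
  mon m n (fun l => (E.pl Bs l).eval (E.F.ret s)) k

lemma computable_mv (m : ℕ) : Computable fun x : ((List (List ℕ) × ℕ) × ℕ) × ℕ =>
    (E.mv m x.1.1.2 x.1.1.1 x.1.2 x.2 : ℕ) := by
  induction m with
  | zero =>
    refine (Computable.const ((1 : E.F.Elem) : ℕ)).of_eq ?_
    intro x
    simp [mv, mon]
  | succ m ih =>
    have h1 : Computable fun x : ((List (List ℕ) × ℕ) × ℕ) × ℕ => x.1.1.1.getD m [] :=
      ((Primrec.list_getD ([] : List ℕ)).comp (Primrec.fst.comp (Primrec.fst.comp Primrec.fst))
        (Primrec.const m)).to_comp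
    have h2 : Computable fun x : ((List (List ℕ) × ℕ) × ℕ) × ℕ =>
        E.self.evN (x.1.1.1.getD m [], x.1.2) :=
      E.self.computable_evN.comp (Computable.pair h1 (Computable.snd.comp Computable.fst))
    have h3 : Computable fun x : ((List (List ℕ) × ℕ) × ℕ) × ℕ =>
        x.2 / x.1.1.2 ^ m % x.1.1.2 :=
      (Primrec.nat_mod.comp (Primrec.nat_div.comp Primrec.snd
        ((primrec_pow_const m).comp (Primrec.snd.comp (Primrec.fst.comp Primrec.fst))))
        (Primrec.snd.comp (Primrec.fst.comp Primrec.fst))).to_comp
    have h4 := E.F.computable_mulN.comp (Computable.pair ih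
      (E.F.computable_powN'.comp (Computable.pair h2 h3)))
    refine h4.of_eq ?_
    rintro ⟨⟨⟨Bs, n⟩, s⟩, k⟩
    have h5 : E.self.evN (Bs.getD m [], s) = ((E.pl Bs m).eval (E.F.ret s) : E.F.Elem) :=
      congrArg Subtype.val (E.self_ev (Bs.getD m []) (E.F.ret s))
    dsimp only
    rw [h5]
    simp only [mv, mon, ComputableField.mulN, ComputableField.powN,
      ComputableField.ret_coe, Finset.prod_range_succ]

/-- total length -/
def lenS (m : ℕ) (Bs : List (List ℕ)) : ℕ := ∑ l ∈ Finset.range m, (Bs.getD l []).length

lemma primrec_lenS (m : ℕ) : Primrec (lenS m) := by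
  induction m with
  | zero => exact (Primrec.const 0).of_eq fun Bs => by simp [lenS]
  | succ m ih =>
    have h1 : Primrec fun Bs : List (List ℕ) => (Bs.getD m []).length :=
      Primrec.list_length.comp ((Primrec.list_getD ([] : List ℕ)).comp Primrec.id
        (Primrec.const m))
    exact (Primrec.nat_add.comp ih h1).of_eq fun Bs => by
      rw [lenS, lenS, Finset.sum_range_succ]

/-- equation `∑ u_k w_k = 1` -/
noncomputable def eq0 (m : ℕ) (n : ℕ) : Pol :=
  (((-1 : E.F.Elem) : ℕ), []) :: (List.range (n ^ m)).map fun k =>
    (((1 : E.F.Elem) : ℕ), [5 * k, 5 * k + 1])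

/-- equation `∑ a_j v_j = 1` -/
noncomputable def eq1 (m : ℕ) (x : List ℕ × ℕ) : Pol :=
  (((-1 : E.F.Elem) : ℕ), []) :: (List.range (x.1.length - x.2 ^ m)).map fun j =>
    (((1 : E.F.Elem) : ℕ), [5 * j + 2, 5 * j + 3])

/-- bound for the degree of the cofactor -/
def bd (m : ℕ) (x : (List ℕ × List (List ℕ)) × ℕ) : ℕ := x.2 * lenS m x.1.2 + 1

/-- equation `(∑ a_j s ^ j) (∑ u_k mon_k(B(s))) = f(s) (∑ q_t s ^ t)` -/
noncomputable def eq2 (m : ℕ) (x : ((List ℕ × List (List ℕ)) × ℕ) × ℕ) : Pol :=
  ((List.range (x.1.1.1.length - x.1.2 ^ m)).flatMap fun j =>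
    (List.range (x.1.2 ^ m)).map fun k =>
      (E.F.mulN (E.F.powN (x.2, j), (E.mv m x.1.2 x.1.1.2 x.2 k : ℕ)), [5 * k, 5 * j + 2])) ++
  (List.range (bd m x.1)).map fun t =>
    (E.F.mulN (((-1 : E.F.Elem) : ℕ), E.F.mulN (E.F.powN (x.2, t), E.self.evN (x.1.1.1, x.2))),
      [5 * t + 4])

/-- the system of equations -/
noncomputable def eqn (m : ℕ) (x : (List ℕ × List (List ℕ)) × ℕ) (a : ℕ) : Pol :=
  cond (decide (a = 0)) (E.eq0 m x.2) (cond (decide (a = 1)) (E.eq1 m (x.1.1, x.2))
    (E.eq2 m (x, a - 2)))

lemma computable_eq0 (m : ℕ) : Computable (E.eq0 m) := by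
  refine Computable.list_cons.comp (Computable.const _) (computable_map ?_ ?_)
  · exact (Primrec.list_range.comp (primrec_pow_const m)).to_comp
  · refine Computable.pair (Computable.const _) ?_
    have h : Primrec fun q : ℕ × ℕ => [5 * q.2, 5 * q.2 + 1] := by
      have h5 : Primrec fun q : ℕ × ℕ => 5 * q.2 :=
        Primrec.nat_mul.comp (Primrec.const 5) Primrec.snd
      exact Primrec.list_cons.comp h5 (Primrec.list_cons.comp
        (Primrec.nat_add.comp h5 (Primrec.const 1)) (Primrec.const []))
    exact h.to_comp

lemma computable_eq1 (m : ℕ) : Computable (E.eq1 m) := by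
  refine Computable.list_cons.comp (Computable.const _) (computable_map ?_ ?_)
  · exact (Primrec.list_range.comp (Primrec.nat_sub.comp (Primrec.list_length.comp Primrec.fst)
      ((primrec_pow_const m).comp Primrec.snd))).to_comp
  · refine Computable.pair (Computable.const _) ?_
    have h : Primrec fun q : (List ℕ × ℕ) × ℕ => [5 * q.2 + 2, 5 * q.2 + 3] := by
      have h5 : Primrec fun q : (List ℕ × ℕ) × ℕ => 5 * q.2 :=
        Primrec.nat_mul.comp (Primrec.const 5) Primrec.snd
      exact Primrec.list_cons.comp (Primrec.nat_add.comp h5 (Primrec.const 2))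
        (Primrec.list_cons.comp (Primrec.nat_add.comp h5 (Primrec.const 3)) (Primrec.const []))
    exact h.to_comp

lemma primrec_bd (m : ℕ) : Primrec (bd m) :=
  Primrec.succ.comp (Primrec.nat_mul.comp Primrec.snd
    ((primrec_lenS m).comp (Primrec.snd.comp Primrec.fst)))

lemma computable_eq2 (m : ℕ) : Computable (E.eq2 m) := by
  refine Computable.list_append.comp ?_ ?_
  · refine computable_flatMap ?_ ?_
    · exact (Primrec.list_range.comp (Primrec.nat_sub.comp
        (Primrec.list_length.comp (Primrec.fst.comp (Primrec.fst.comp Primrec.fst)))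
        ((primrec_pow_const m).comp (Primrec.snd.comp Primrec.fst)))).to_comp
    · refine computable_map (f := fun q : (((List ℕ × List (List ℕ)) × ℕ) × ℕ) × ℕ =>
        List.range (q.1.1.2 ^ m)) ?_ ?_
      · exact (Primrec.list_range.comp ((primrec_pow_const m).comp
          (Primrec.snd.comp (Primrec.fst.comp Primrec.fst)))).to_comp
      · -- `q = ((x, j), k)`
        have hs : Computable fun q : ((((List ℕ × List (List ℕ)) × ℕ) × ℕ) × ℕ) × ℕ =>
            q.1.1.2 := Computable.snd.comp (Computable.fst.comp Computable.fst)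
        have hj : Computable fun q : ((((List ℕ × List (List ℕ)) × ℕ) × ℕ) × ℕ) × ℕ =>
            q.1.2 := Computable.snd.comp Computable.fst
        have hBs : Computable fun q : ((((List ℕ × List (List ℕ)) × ℕ) × ℕ) × ℕ) × ℕ =>
            q.1.1.1.1.2 := Computable.snd.comp (Computable.fst.comp (Computable.fst.comp
              (Computable.fst.comp Computable.fst)))
        have hn : Computable fun q : ((((List ℕ × List (List ℕ)) × ℕ) × ℕ) × ℕ) × ℕ =>
            q.1.1.1.2 := Computable.snd.comp (Computable.fst.comp (Computable.fst.comp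
              Computable.fst))
        have h1 := E.F.computable_mulN.comp (Computable.pair
          (E.F.computable_powN'.comp (Computable.pair hs hj))
          ((E.computable_mv m).comp (Computable.pair (Computable.pair (Computable.pair hBs hn) hs)
            Computable.snd)))
        have h2 : Primrec fun q : ((((List ℕ × List (List ℕ)) × ℕ) × ℕ) × ℕ) × ℕ =>
            [5 * q.2, 5 * q.1.2 + 2] := by
          exact Primrec.list_cons.comp (Primrec.nat_mul.comp (Primrec.const 5) Primrec.snd)
            (Primrec.list_cons.comp (Primrec.nat_add.comp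
              (Primrec.nat_mul.comp (Primrec.const 5) (Primrec.snd.comp Primrec.fst))
              (Primrec.const 2)) (Primrec.const []))
        exact Computable.pair h1 h2.to_comp
  · refine computable_map ?_ ?_
    · exact (Primrec.list_range.comp ((primrec_bd m).comp Primrec.fst)).to_comp
    · -- `q = (x, t)`
      have hs : Computable fun q : (((List ℕ × List (List ℕ)) × ℕ) × ℕ) × ℕ =>
          q.1.2 := Computable.snd.comp Computable.fst
      have hf : Computable fun q : (((List ℕ × List (List ℕ)) × ℕ) × ℕ) × ℕ =>
          q.1.1.1.1 := Computable.fst.comp (Computable.fst.comp (Computable.fst.comp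
            Computable.fst))
      have h1 := E.F.computable_mulN.comp (Computable.pair
        (Computable.const ((-1 : E.F.Elem) : ℕ)) (E.F.computable_mulN.comp (Computable.pair
        (E.F.computable_powN'.comp (Computable.pair hs Computable.snd))
        (E.self.computable_evN.comp (Computable.pair hf hs)))))
      have h2 : Primrec fun q : (((List ℕ × List (List ℕ)) × ℕ) × ℕ) × ℕ =>
          [5 * q.2 + 4] :=
        Primrec.list_cons.comp (Primrec.nat_add.comp
          (Primrec.nat_mul.comp (Primrec.const 5) Primrec.snd) (Primrec.const 4))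
          (Primrec.const [])
      exact Computable.pair h1 h2.to_comp

lemma computable_eqn (m : ℕ) : Computable₂ (E.eqn m) := by
  have h0 : Computable fun q : ((List ℕ × List (List ℕ)) × ℕ) × ℕ => decide (q.2 = 0) :=
    (Primrec.eq.comp Primrec.snd (Primrec.const 0)).decide.to_comp
  have h1 : Computable fun q : ((List ℕ × List (List ℕ)) × ℕ) × ℕ => decide (q.2 = 1) :=
    (Primrec.eq.comp Primrec.snd (Primrec.const 1)).decide.to_comp
  refine Computable.cond h0 ?_ (Computable.cond h1 ?_ ?_)
  · exact (E.computable_eq0 m).comp (Computable.snd.comp Computable.fst)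
  · exact (E.computable_eq1 m).comp (Computable.pair
      (Computable.fst.comp (Computable.fst.comp Computable.fst))
      (Computable.snd.comp Computable.fst))
  · exact (E.computable_eq2 m).comp (Computable.pair Computable.fst
      (Primrec.nat_sub.comp Primrec.snd (Primrec.const 2)).to_comp)

end ComputableExtension

end Pool.Agent.MP_fdcf9c_lc
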